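import Mathlib
import Pool.Agent.H20.TH.Defs

/-!
# Definitions: sums of motives with isolated Hodge numbers
-/

set_option autoImplicit false

namespace Pool.Agent.H20.TK

open Matrix Pool.Agent.H4.HW Pool.Agent.H20.TD

variable {T B : Type} [Fintype T] [DecidableEq T] (M : Betti T B)

/-- the rank of the summand `M_b` -/
noncomputable def rank (b : B) : ℕ := Nat.card {t // M.blk t = b}

open scoped Classical in
/-- twice the Hodge number `h^{n, -n}` of the Lie algebra of the form on `M_b`, which is the Hodge structure
`Sym² M_b (w)` if the form is alternating, and `Λ² M_b (w)` if it is symmetric (`w` the weight of `M_b`) -/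
noncomputable def adHodge (b : B) (n : ℤ) : ℤ :=
  Nat.card {p : T × T // M.blk p.1 = b ∧ M.blk p.2 = b ∧ M.hdg p.1 + M.hdg p.2 = M.wt b + n} +
  (if Alternating M b then 1 else -1) *
    Nat.card {t : T // M.blk t = b ∧ M.hdg t + M.hdg t = M.wt b + n}

/-- the form on `M_b` is alternating, or the rank is three or at least five -/
def IsGood (b : B) : Prop := Alternating M b ∨ rank M b = 3 ∨ 5 ≤ rank M b

/-- the form on `M_b` is symmetric, and the rank is three, five, six, seven, or at least nine -/
def Regular (b : B) : Prop := ¬ Alternating M b ∧ (rank M b = 3 ∨ 5 ≤ rank M b) ∧ rank M b ≠ 8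

/-- the forms on `M_b` and `M_c` are both alternating, or both symmetric of ranks as in `Regular` -/
def SameKind (b c : B) : Prop := (Alternating M b ∧ Alternating M c) ∨ (Regular M b ∧ Regular M c)

/-- The forms on `M_b` and `M_c` are of the same kind, or the Lie algebras of the forms are simple and
their Hodge numbers are different. -/
def Compatible (b c : B) : Prop :=
  SameKind M b c ∨ (IsGood M b ∧ IsGood M c ∧ ∃ n, adHodge M b n ≠ adHodge M c n)

/-- The motive `M_b` is polarised, with trivial endomorphisms, and the Hodge number `h^{a, w - a}`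
(`a` the Hodge weight of the vector `v` of the Hodge basis, `w` the weight of `M_b`) is isolated. -/
structure Isolated (S : Set B) (b : B) (v : T) : Prop where
  /-- the form is symmetric or alternating -/
  sign : ∃ ε : ℚ, (ε = 1 ∨ ε = -1) ∧ ∀ s t, M.blk s = b → M.E t s = ε * M.E s t
  /-- the form is a morphism of Hodge structures `M_b ⊗ M_b → ℚ(-w)` -/
  polar : ∀ s t, M.blk s = b →
    (M.Dᵀ * M.EF ℂ + M.EF ℂ * M.D) s t = M.wt b * M.EF ℂ s t
  simple : M.Simple b
  trivialEnd : M.TrivialEnd b
  mem : M.blk v = b
  /-- the Hodge number is one -/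
  one : ∀ t, M.blk t = b → M.hdg t = M.hdg v → t = v
  /-- it is isolated in `M_b` -/
  isolated : ∀ r s t, M.blk r = b → M.blk s = b → M.blk t = b →
    M.hdg v + M.hdg r = M.hdg s + M.hdg t → s = v ∨ t = v ∨ M.hdg v + M.hdg r = M.wt b
  /-- its differences with the other Hodge weights of `M_b` do not occur in the other summands, except
  for the summands in `S` which are compatible with `M_b` -/
  across : ∀ r s t, M.blk t = b → t ≠ v → M.blk r = M.blk s → M.blk r ≠ b →
    ¬ (M.blk r ∈ S ∧ Compatible M b (M.blk r)) →
    M.hdg t - M.hdg v ≠ M.hdg r - M.hdg s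

/-- The Betti realization of a motive: `o` spans a summand `ℚ(-1)`, and for `b ∈ S` the motive `M_b` has
an isolated Hodge number. -/
structure IsBetti (S : Set B) : Prop where
  /-- the Hodge decomposition is compatible with the decomposition `M = ⨁ M_b` -/
  basis : IsUnit M.P.det ∧ IsBlock M.blk M.P
  /-- the form is nondegenerate and compatible with the decomposition (on the summands `M_b` with
  `b ∉ S` it is an arbitrary invertible matrix) -/
  form : IsUnit M.E.det ∧ IsBlock M.blk M.E
  tate : (∀ t, M.blk t = M.blk M.o → t = M.o) ∧ M.hdg M.o = 1 ∧ M.blk M.o ∉ S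
  isolated : ∀ b ∈ S, ∃ v, Isolated M S b v

/-- The Tate conjecture for the homomorphisms between different summands `M_b`, `M_c` in `S` with
polarizations of the same kind (`m` is the half of the difference of the weights): the maps
`M_c → M_b(m)` of the `ℓ`-adic realizations which commute with an open subgroup of the Galois group are
the `ℚ_ℓ`-linear combinations of the maps of Hodge structures. -/
def TateHom (S : Set B) {ℓ : ℕ} [Fact ℓ.Prime] {Γ : Type} [Group Γ] [TopologicalSpace Γ]
    (ρ : Γ →* Matrix T T ℚ_[ℓ]) : Prop :=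
  ∀ b ∈ S, ∀ c ∈ S, b ≠ c → SameKind M b c → ∀ m : ℤ,
    2 * m = M.wt b - M.wt c → ∀ C : Matrix T T ℚ_[ℓ],
    (MapsTo M b c C ∧ ∃ U : Subgroup Γ, IsOpen (U : Set Γ) ∧
      ∀ g ∈ U, ρ g * C = (ρ g M.o M.o) ^ m • (C * ρ g)) ↔
    C ∈ extend ℚ_[ℓ] {G | TH.HodgeMap M b c m G}

/-- The maps of Hodge structures between different summands in `S` with polarizations of the same
kind are motivated: they commute with the Lie algebra `𝔪` of the motivic Galois group. -/
def MotHom (S : Set B) (𝔪 : Submodule ℚ (Matrix T T ℚ)) : Prop :=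
  ∀ b ∈ S, ∀ c ∈ S, b ≠ c → SameKind M b c → ∀ m : ℤ,
    2 * m = M.wt b - M.wt c → ∀ G, TH.HodgeMap M b c m G →
    ∀ X ∈ 𝔪, X * G - G * X = ((m : ℚ) * X M.o M.o) • G

/-- For different `b`, `c` in `S` with polarizations of the same kind there are no maps of Hodge
structures `M_c → M_b(m)`, where `m` is the half of the difference of the weights, and some element of
the Galois group distinguishes the `ℓ`-adic realizations. -/
def Distinct (S : Set B) {ℓ : ℕ} [Fact ℓ.Prime] {Γ : Type} [Group Γ] [TopologicalSpace Γ]
    (ρ : Γ →* Matrix T T ℚ_[ℓ]) : Prop :=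
  ∀ b ∈ S, ∀ c ∈ S, b ≠ c → SameKind M b c → ∀ m : ℤ,
    2 * m = M.wt b - M.wt c → (∀ G, TH.HodgeMap M b c m G → G = 0) ∧ TH.Differ M b c m ρ

end Pool.Agent.H20.TK
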