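import Mathlib
import Pool.Agent.H20.TI.So

/-!
# Traces of the adjoint representation of the orthogonal Lie algebra
-/

set_option autoImplicit false
set_option linter.unusedSectionVars false

namespace Pool.Agent.H20.TK

open Matrix Module Pool.Agent.H20.TI

variable {k R : Type} [Field k] [CharZero k] [Fintype R] [DecidableEq R] (a : R → k)

/-- the adjoint matrix for the form `∑ a i x i y i` -/
def adj : Matrix R R k →ₗ[k] Matrix R R k where
  toFun A := Matrix.of fun i j => (a i)⁻¹ * A j i * a j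
  map_add' A C := by
    ext i j
    simp only [Matrix.of_apply, Matrix.add_apply]
    ring
  map_smul' c A := by
    ext i j
    simp only [Matrix.of_apply, Matrix.smul_apply, smul_eq_mul, RingHom.id_apply]
    ring

theorem adj_apply (A : Matrix R R k) (i j : R) : adj a A i j = (a i)⁻¹ * A j i * a j := rfl

variable {a} (ha : ∀ i, a i ≠ 0)
include ha

theorem adj_mul (A C : Matrix R R k) : adj a (A * C) = adj a C * adj a A := by
  ext i j
  rw [adj_apply, mul_apply, mul_apply, Finset.mul_sum, Finset.sum_mul]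
  refine Finset.sum_congr rfl fun l _ => ?_
  rw [adj_apply, adj_apply]
  have h := ha l
  field_simp

theorem trace_adj (A : Matrix R R k) : trace (adj a A) = trace A := by
  rw [trace, trace]
  refine Finset.sum_congr rfl fun i _ => ?_
  rw [diag_apply, diag_apply, adj_apply]
  have h := ha i
  field_simp

theorem adj_adj (A : Matrix R R k) : adj a (adj a A) = A := by
  ext i j
  rw [adj_apply, adj_apply]
  have h1 := ha i
  have h2 := ha j
  field_simp

theorem mem_iff_adj {X : Matrix R R k} : X ∈ SoM a ↔ adj a X = -X := by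
  rw [mem_SoM]
  constructor
  · intro h
    ext i j
    rw [adj_apply, Matrix.neg_apply]
    have h1 := ha i
    have h2 := h i j
    field_simp
    linear_combination h2
  · intro h i j
    have h2 := congrFun (congrFun h i) j
    rw [adj_apply, Matrix.neg_apply] at h2
    have h1 := ha i
    field_simp at h2
    linear_combination h2

theorem adj_mem {X : Matrix R R k} (h : X ∈ SoM a) : adj a X = -X := (mem_iff_adj ha).1 h

omit ha in
theorem trace_sum (L : Matrix R R k →ₗ[k] Matrix R R k) :
    LinearMap.trace k _ L = ∑ i, ∑ j, L (single i j 1) i j := by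
  rw [LinearMap.trace_eq_matrix_trace k (Matrix.stdBasis k R R) L, Matrix.trace,
    Fintype.sum_prod_type]
  refine Finset.sum_congr rfl fun i _ => Finset.sum_congr rfl fun j _ => ?_
  rw [diag_apply, LinearMap.toMatrix_apply, Matrix.stdBasis_eq_single]
  rfl

/-- the map `Y ↦ A Y C` -/
def T1 (A C : Matrix R R k) : Matrix R R k →ₗ[k] Matrix R R k :=
  LinearMap.mulLeft k A ∘ₗ LinearMap.mulRight k C

omit ha in
theorem T1_apply (A C Y : Matrix R R k) : T1 A C Y = A * (Y * C) := rfl

omit ha in
theorem trace_T1 (A C : Matrix R R k) : LinearMap.trace k _ (T1 A C) = trace A * trace C := by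
  rw [trace_sum, trace, trace, Finset.sum_mul_sum]
  refine Finset.sum_congr rfl fun i _ => Finset.sum_congr rfl fun j _ => ?_
  rw [T1_apply, ← mul_assoc, mul_apply, Finset.sum_eq_single j]
  · rw [mul_apply, Finset.sum_eq_single i]
    · rw [single_apply, if_pos ⟨rfl, rfl⟩, mul_one]
      rfl
    · intro l _ hl
      rw [single_apply, if_neg (fun h => hl h.1.symm), mul_zero]
    · intro h
      exact absurd (Finset.mem_univ _) h
  · intro l _ hl
    rw [mul_apply, Finset.sum_eq_zero, zero_mul]
    intro r _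
    rw [single_apply, if_neg (fun h => hl h.2.symm), mul_zero]
  · intro h
    exact absurd (Finset.mem_univ _) h

theorem trace_T1_adj (A C : Matrix R R k) :
    LinearMap.trace k _ (T1 A C ∘ₗ adj a) = trace (A * adj a C) := by
  rw [trace_sum, trace]
  refine Finset.sum_congr rfl fun i _ => ?_
  rw [diag_apply, mul_apply]
  refine Finset.sum_congr rfl fun j _ => ?_
  rw [LinearMap.comp_apply, T1_apply, ← mul_assoc, mul_apply, Finset.sum_eq_single i]
  · rw [mul_apply, Finset.sum_eq_single j]
    · rw [adj_apply, adj_apply, single_apply, if_pos ⟨rfl, rfl⟩, mul_one]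
      ring
    · intro l _ hl
      rw [adj_apply, single_apply, if_neg (fun h => hl h.2.symm)]
      ring
    · intro h
      exact absurd (Finset.mem_univ _) h
  · intro l _ hl
    rw [mul_apply, Finset.sum_eq_zero, zero_mul]
    intro r _
    rw [adj_apply, single_apply, if_neg (fun h => hl h.1.symm)]
    ring
  · intro h
    exact absurd (Finset.mem_univ _) h

/-- the projection to the skew matrices -/
noncomputable def prs : Matrix R R k →ₗ[k] SoM a where
  toFun Y := ⟨(2 : k)⁻¹ • (Y - adj a Y), by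
    rw [mem_iff_adj ha, map_smul, map_sub, adj_adj ha, ← smul_neg, neg_sub]⟩
  map_add' X Y := by
    refine Subtype.ext ?_
    change (2 : k)⁻¹ • (X + Y - adj a (X + Y)) =
      (2 : k)⁻¹ • (X - adj a X) + (2 : k)⁻¹ • (Y - adj a Y)
    rw [map_add, ← smul_add]
    congr 1
    abel
  map_smul' c X := by
    refine Subtype.ext ?_
    change (2 : k)⁻¹ • (c • X - adj a (c • X)) = c • ((2 : k)⁻¹ • (X - adj a X))
    rw [map_smul, ← smul_sub, smul_comm]

theorem trace_SoM {Z : SoM a →ₗ[k] SoM a} {L : Matrix R R k →ₗ[k] Matrix R R k}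
    (h : ∀ Y : SoM a, (Z Y : Matrix R R k) = L Y) :
    LinearMap.trace k _ Z = (2 : k)⁻¹ *
      (LinearMap.trace k _ L - LinearMap.trace k _ (L ∘ₗ adj a)) := by
  have h1 : Z = (Z ∘ₗ prs ha) ∘ₗ (SoM a).subtype := by
    refine LinearMap.ext fun Y => ?_
    rw [LinearMap.comp_apply, LinearMap.comp_apply]
    congr 1
    refine Subtype.ext ?_
    change (Y : Matrix R R k) = (2 : k)⁻¹ • ((Y : Matrix R R k) - adj a Y)
    rw [adj_mem ha Y.2, sub_neg_eq_add, ← two_smul k (Y : Matrix R R k), smul_smul,
      inv_mul_cancel₀ two_ne_zero, one_smul]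
  have h2 : (SoM a).subtype ∘ₗ (Z ∘ₗ prs ha) = (2 : k)⁻¹ • (L - L ∘ₗ adj a) := by
    refine LinearMap.ext fun Y => ?_
    change ((Z (prs ha Y) : SoM a) : Matrix R R k) = _
    rw [h]
    change L ((2 : k)⁻¹ • (Y - adj a Y)) = (2 : k)⁻¹ • (L Y - L (adj a Y))
    rw [map_smul, map_sub]
  rw [h1, LinearMap.trace_comp_comm', h2, map_smul, map_sub, smul_eq_mul]

omit ha in
theorem br_mem' {X Y : Matrix R R k} (ha : ∀ i, a i ≠ 0) (hX : X ∈ SoM a) (hY : Y ∈ SoM a) :
    X * Y - Y * X ∈ SoM a := by
  rw [mem_iff_adj ha, map_sub, adj_mul ha, adj_mul ha, adj_mem ha hX, adj_mem ha hY]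
  noncomm_ring

/-- the adjoint representation -/
def adL (X : SoM a) : SoM a →ₗ[k] SoM a where
  toFun Y := ⟨(X : Matrix R R k) * Y - Y * X, br_mem' ha X.2 Y.2⟩
  map_add' Y Z := by
    refine Subtype.ext ?_
    change (X : Matrix R R k) * (Y + Z) - (Y + Z) * X =
      ((X : Matrix R R k) * Y - Y * X) + ((X : Matrix R R k) * Z - Z * X)
    noncomm_ring
  map_smul' c Y := by
    refine Subtype.ext ?_
    change (X : Matrix R R k) * (c • (Y : Matrix R R k)) - (c • (Y : Matrix R R k)) * X =
      c • ((X : Matrix R R k) * Y - Y * X)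
    rw [mul_smul_comm, smul_mul_assoc, smul_sub]

theorem adL_coe (X Y : SoM a) : (adL ha X Y : Matrix R R k) = X * Y - Y * X := rfl

theorem trace_skew {X : Matrix R R k} (hX : X ∈ SoM a) : trace X = 0 := by
  have h1 := trace_adj ha X
  rw [adj_mem ha hX, trace_neg] at h1
  have h2 : (2 : k) * trace X = 0 := by linear_combination -h1
  exact (mul_eq_zero.1 h2).resolve_left two_ne_zero

theorem trace_ad2 (X : SoM a) : LinearMap.trace k _ (adL ha X ∘ₗ adL ha X) =
    ((Fintype.card R : k) - 2) * trace (X.1 * X.1) := by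
  obtain ⟨X, hX⟩ := X
  have h1 := trace_SoM ha (Z := adL ha ⟨X, hX⟩ ∘ₗ adL ha ⟨X, hX⟩)
    (L := T1 (X * X) 1 - (2 : k) • T1 X X + T1 1 (X * X)) (by
      rintro ⟨Y, hY⟩
      change X * (X * Y - Y * X) - (X * Y - Y * X) * X = (X * X) * (Y * 1) -
        (2 : k) • (X * (Y * X)) + 1 * (Y * (X * X))
      rw [two_smul]
      noncomm_ring)
  have e1 := adj_mem ha hX
  have e2 : adj a 1 = 1 := by
    ext i j
    rw [adj_apply]
    by_cases hij : i = j
    · subst hij
      have := ha i
      rw [one_apply_eq]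
      field_simp
    · rw [one_apply_ne hij, one_apply_ne (Ne.symm hij)]
      ring
  rw [h1, LinearMap.add_comp, LinearMap.sub_comp, LinearMap.smul_comp, map_add, map_sub, map_smul,
    map_add, map_sub, map_smul, trace_T1, trace_T1, trace_T1, trace_T1_adj ha, trace_T1_adj ha,
    trace_T1_adj ha, adj_mul ha, e1, e2, trace_skew ha hX, neg_mul_neg, mul_neg, trace_neg, mul_one,
    one_mul, trace_one, smul_eq_mul, smul_eq_mul]
  ring

theorem trace_ad4 (X : SoM a) :
    LinearMap.trace k _ ((adL ha X ∘ₗ adL ha X) ∘ₗ (adL ha X ∘ₗ adL ha X)) =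
    ((Fintype.card R : k) - 8) * trace (X.1 * X.1 * (X.1 * X.1)) +
      3 * trace (X.1 * X.1) ^ 2 := by
  obtain ⟨X, hX⟩ := X
  have h1 := trace_SoM ha (Z := (adL ha ⟨X, hX⟩ ∘ₗ adL ha ⟨X, hX⟩) ∘ₗ
      (adL ha ⟨X, hX⟩ ∘ₗ adL ha ⟨X, hX⟩))
    (L := T1 (X * X * (X * X)) 1 - (4 : k) • T1 (X * X * X) X + (6 : k) • T1 (X * X) (X * X) -
      (4 : k) • T1 X (X * X * X) + T1 1 (X * X * (X * X))) (by
      rintro ⟨Y, hY⟩
      have e4 : ∀ Z : Matrix R R k, (4 : k) • Z = Z + Z + Z + Z := fun Z => by
        have : (4 : k) = 1 + 1 + 1 + 1 := by norm_num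
        rw [this, add_smul, add_smul, add_smul, one_smul]
      have e6 : ∀ Z : Matrix R R k, (6 : k) • Z = Z + Z + Z + Z + Z + Z := fun Z => by
        have : (6 : k) = 1 + 1 + 1 + 1 + 1 + 1 := by norm_num
        rw [this, add_smul, add_smul, add_smul, add_smul, add_smul, one_smul]
      change X * (X * (X * (X * Y - Y * X) - (X * Y - Y * X) * X) -
          (X * (X * Y - Y * X) - (X * Y - Y * X) * X) * X) -
        (X * (X * (X * Y - Y * X) - (X * Y - Y * X) * X) -
          (X * (X * Y - Y * X) - (X * Y - Y * X) * X) * X) * X =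
        (X * X * (X * X)) * (Y * 1) - (4 : k) • ((X * X * X) * (Y * X)) +
          (6 : k) • ((X * X) * (Y * (X * X))) - (4 : k) • (X * (Y * (X * X * X))) +
          1 * (Y * (X * X * (X * X)))
      rw [e4, e4, e6]
      noncomm_ring)
  have e1 := adj_mem ha hX
  have e2 : adj a 1 = 1 := by
    ext i j
    rw [adj_apply]
    by_cases hij : i = j
    · subst hij
      have := ha i
      rw [one_apply_eq]
      field_simp
    · rw [one_apply_ne hij, one_apply_ne (Ne.symm hij)]
      ring
  have e3 : trace (X * X * X) = 0 := by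
    refine trace_skew ha ?_
    rw [mem_iff_adj ha, adj_mul ha, adj_mul ha, e1]
    noncomm_ring
  rw [h1]
  simp only [LinearMap.add_comp, LinearMap.sub_comp, LinearMap.smul_comp, map_add, map_sub,
    map_smul, trace_T1, trace_T1_adj ha, adj_mul ha, e1, e2, e3, trace_skew ha hX, neg_mul_neg,
    mul_neg, neg_mul, trace_neg, mul_one, one_mul, trace_one, smul_eq_mul, neg_neg, mul_zero,
    zero_mul, ← mul_assoc]
  ring

end Pool.Agent.H20.TK
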