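import Mathlib
import Pool.Agent.H20.TK.Trace

/-!
# An isomorphism of orthogonal Lie algebras preserves the traces of words of length four
-/

set_option autoImplicit false
set_option linter.unusedSectionVars false

namespace Pool.Agent.H20.TK

open Matrix Module Pool.Agent.H20.TI

variable {k R R' : Type} [Field k] [CharZero k] [Fintype R] [DecidableEq R] [Fintype R']
  [DecidableEq R'] {a : R → k} {a' : R' → k}

/-- the bracket of two skew matrices -/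
def br (ha : ∀ i, a i ≠ 0) (X Y : SoM a) : SoM a := ⟨X.1 * Y.1 - Y.1 * X.1, br_mem' ha X.2 Y.2⟩

variable (ha : ∀ i, a i ≠ 0) (ha' : ∀ i, a' i ≠ 0)

theorem tr3 (X Y Z : SoM a) : 2 * trace (X.1 * Y.1 * Z.1) = trace (X.1 * (br ha Y Z).1) := by
  have e1 := trace_adj ha (X.1 * Y.1 * Z.1)
  rw [adj_mul ha, adj_mul ha, adj_mem ha X.2, adj_mem ha Y.2, adj_mem ha Z.2] at e1
  have e2 : -Z.1 * (-Y.1 * -X.1) = -(Z.1 * Y.1 * X.1) := by noncomm_ring
  rw [e2, trace_neg] at e1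
  have e3 : trace (Z.1 * Y.1 * X.1) = trace (X.1 * Z.1 * Y.1) := by
    rw [trace_mul_comm, ← mul_assoc]
  change _ = trace (X.1 * (Y.1 * Z.1 - Z.1 * Y.1))
  rw [mul_sub, trace_sub, ← mul_assoc, ← mul_assoc, ← e3]
  linear_combination -e1

include ha in
theorem tr4s (X Y Z : SoM a) : trace (X.1 * X.1 * (Y.1 * Z.1)) = trace (X.1 * X.1 * (Z.1 * Y.1)) := by
  have e1 := trace_adj ha (X.1 * X.1 * (Y.1 * Z.1))
  rw [adj_mul ha, adj_mul ha, adj_mul ha, adj_mem ha X.2, adj_mem ha Y.2, adj_mem ha Z.2,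
    neg_mul_neg, neg_mul_neg, trace_mul_comm] at e1
  exact e1.symm

theorem tr4p (X Y : SoM a) :
    trace ((X + Y).1 * (X + Y).1 * ((X + Y).1 * (X + Y).1)) +
      trace ((X - Y).1 * (X - Y).1 * ((X - Y).1 * (X - Y).1)) =
    2 * trace (X.1 * X.1 * (X.1 * X.1)) + 2 * trace (Y.1 * Y.1 * (Y.1 * Y.1)) +
      12 * trace (X.1 * X.1 * (Y.1 * Y.1)) + 2 * trace ((br ha X Y).1 * (br ha X Y).1) := by
  obtain ⟨X, hX⟩ := X
  obtain ⟨Y, hY⟩ := Y
  change trace ((X + Y) * (X + Y) * ((X + Y) * (X + Y))) +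
      trace ((X - Y) * (X - Y) * ((X - Y) * (X - Y))) =
    2 * trace (X * X * (X * X)) + 2 * trace (Y * Y * (Y * Y)) +
      12 * trace (X * X * (Y * Y)) + 2 * trace ((X * Y - Y * X) * (X * Y - Y * X))
  have c1 : trace (X * Y * Y * X) = trace (X * X * Y * Y) := by
    rw [trace_mul_comm (X * Y * Y) X]
    simp only [← mul_assoc]
  have c2 : trace (Y * Y * X * X) = trace (X * X * Y * Y) := by
    rw [mul_assoc (Y * Y), trace_mul_comm (Y * Y)]
    simp only [← mul_assoc]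
  have c3 : trace (Y * X * X * Y) = trace (X * X * Y * Y) := by
    rw [mul_assoc, mul_assoc, trace_mul_comm Y]
    simp only [← mul_assoc]
  have c4 : trace (Y * X * Y * X) = trace (X * Y * X * Y) := by
    rw [trace_mul_comm (Y * X * Y) X]
    simp only [← mul_assoc]
  simp only [mul_add, add_mul, mul_sub, sub_mul, trace_add, trace_sub, ← mul_assoc, c1, c2, c3, c4]
  ring

variable (ψ : SoM a ≃ₗ[k] SoM a') (hψ : ∀ X Y, ψ (br ha X Y) = br ha' (ψ X) (ψ Y))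
include hψ

theorem conj_ad (X : SoM a) :
    adL ha' (ψ X) = ψ.toLinearMap ∘ₗ adL ha X ∘ₗ ψ.symm.toLinearMap := by
  refine LinearMap.ext fun Y => ?_
  have h := hψ X (ψ.symm Y)
  rw [LinearEquiv.apply_symm_apply] at h
  exact h.symm

theorem pres2 (hn : Fintype.card R = Fintype.card R') (hn2 : Fintype.card R ≠ 2) (X : SoM a) :
    trace ((ψ X).1 * (ψ X).1) = trace (X.1 * X.1) := by
  have h1 := trace_ad2 ha X
  have h2 := trace_ad2 ha' (ψ X)
  have h3 : adL ha' (ψ X) ∘ₗ adL ha' (ψ X) =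
      ψ.toLinearMap ∘ₗ (adL ha X ∘ₗ adL ha X) ∘ₗ ψ.symm.toLinearMap := by
    rw [conj_ad ha ha' ψ hψ]
    refine LinearMap.ext fun Y => ?_
    simp only [LinearMap.comp_apply, LinearEquiv.coe_coe, LinearEquiv.symm_apply_apply]
  have h4 : LinearMap.trace k _ (adL ha' (ψ X) ∘ₗ adL ha' (ψ X)) =
      LinearMap.trace k _ (adL ha X ∘ₗ adL ha X) := by
    rw [h3]
    exact LinearMap.trace_conj' (adL ha X ∘ₗ adL ha X) ψ
  rw [h1, h2, ← hn] at h4
  have h5 : ((Fintype.card R : k) - 2) ≠ 0 := by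
    intro h
    apply hn2
    have h6 : (Fintype.card R : k) = ((2 : ℕ) : k) := by
      push_cast
      linear_combination h
    exact_mod_cast h6
  exact mul_left_cancel₀ h5 h4

theorem pres4 (hn : Fintype.card R = Fintype.card R') (hn2 : Fintype.card R ≠ 2)
    (hn8 : Fintype.card R ≠ 8) (X : SoM a) :
    trace ((ψ X).1 * (ψ X).1 * ((ψ X).1 * (ψ X).1)) = trace (X.1 * X.1 * (X.1 * X.1)) := by
  have h1 := trace_ad4 ha X
  have h2 := trace_ad4 ha' (ψ X)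
  have h3 : (adL ha' (ψ X) ∘ₗ adL ha' (ψ X)) ∘ₗ (adL ha' (ψ X) ∘ₗ adL ha' (ψ X)) =
      ψ.toLinearMap ∘ₗ ((adL ha X ∘ₗ adL ha X) ∘ₗ (adL ha X ∘ₗ adL ha X)) ∘ₗ
        ψ.symm.toLinearMap := by
    rw [conj_ad ha ha' ψ hψ]
    refine LinearMap.ext fun Y => ?_
    simp only [LinearMap.comp_apply, LinearEquiv.coe_coe, LinearEquiv.symm_apply_apply]
  have h4 : LinearMap.trace k _ ((adL ha' (ψ X) ∘ₗ adL ha' (ψ X)) ∘ₗ
      (adL ha' (ψ X) ∘ₗ adL ha' (ψ X))) =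
      LinearMap.trace k _ ((adL ha X ∘ₗ adL ha X) ∘ₗ (adL ha X ∘ₗ adL ha X)) := by
    rw [h3]
    exact LinearMap.trace_conj' ((adL ha X ∘ₗ adL ha X) ∘ₗ (adL ha X ∘ₗ adL ha X)) ψ
  rw [h1, h2, ← hn, pres2 ha ha' ψ hψ hn hn2] at h4
  have h5 : ((Fintype.card R : k) - 8) ≠ 0 := by
    intro h
    apply hn8
    have h6 : (Fintype.card R : k) = ((8 : ℕ) : k) := by
      push_cast
      linear_combination h
    exact_mod_cast h6
  exact mul_left_cancel₀ h5 (add_right_cancel h4)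

variable (hn : Fintype.card R = Fintype.card R') (hn2 : Fintype.card R ≠ 2)
  (hn8 : Fintype.card R ≠ 8)
include hn hn2

theorem pr2 (X Y : SoM a) : trace ((ψ X).1 * (ψ Y).1) = trace (X.1 * Y.1) := by
  have h1 := pres2 ha ha' ψ hψ hn hn2 (X + Y)
  have h2 := pres2 ha ha' ψ hψ hn hn2 X
  have h3 := pres2 ha ha' ψ hψ hn hn2 Y
  rw [map_add] at h1
  have e1 : ∀ (A C : SoM a), trace ((A + C).1 * (A + C).1) =
      trace (A.1 * A.1) + 2 * trace (A.1 * C.1) + trace (C.1 * C.1) := by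
    intro A C
    change trace ((A.1 + C.1) * (A.1 + C.1)) = _
    rw [mul_add, add_mul, add_mul, trace_add, trace_add, trace_add, trace_mul_comm C.1 A.1]
    ring
  have e2 : ∀ (A C : SoM a'), trace ((A + C).1 * (A + C).1) =
      trace (A.1 * A.1) + 2 * trace (A.1 * C.1) + trace (C.1 * C.1) := by
    intro A C
    change trace ((A.1 + C.1) * (A.1 + C.1)) = _
    rw [mul_add, add_mul, add_mul, trace_add, trace_add, trace_add, trace_mul_comm C.1 A.1]
    ring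
  rw [e1, e2] at h1
  have h4 : (2 : k) * (trace ((ψ X).1 * (ψ Y).1) - trace (X.1 * Y.1)) = 0 := by
    linear_combination h1 - h2 - h3
  exact sub_eq_zero.1 ((mul_eq_zero.1 h4).resolve_left two_ne_zero)

theorem pr3 (X Y Z : SoM a) : trace ((ψ X).1 * (ψ Y).1 * (ψ Z).1) = trace (X.1 * Y.1 * Z.1) := by
  have h1 := tr3 ha X Y Z
  have h2 := tr3 ha' (ψ X) (ψ Y) (ψ Z)
  rw [← hψ, pr2 ha ha' ψ hψ hn hn2, ← h1] at h2
  exact mul_left_cancel₀ two_ne_zero h2

include hn8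

theorem pr4a (X Y : SoM a) : trace ((ψ X).1 * (ψ X).1 * ((ψ Y).1 * (ψ Y).1)) =
    trace (X.1 * X.1 * (Y.1 * Y.1)) := by
  have h1 := tr4p ha X Y
  have h2 := tr4p ha' (ψ X) (ψ Y)
  rw [← hψ, pr2 ha ha' ψ hψ hn hn2, ← map_add, ← map_sub, pres4 ha ha' ψ hψ hn hn2 hn8,
    pres4 ha ha' ψ hψ hn hn2 hn8, pres4 ha ha' ψ hψ hn hn2 hn8, pres4 ha ha' ψ hψ hn hn2 hn8,
    h1] at h2
  have h4 : (12 : k) * (trace ((ψ X).1 * (ψ X).1 * ((ψ Y).1 * (ψ Y).1)) -
      trace (X.1 * X.1 * (Y.1 * Y.1))) = 0 := by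
    linear_combination -h2
  exact sub_eq_zero.1 ((mul_eq_zero.1 h4).resolve_left (by norm_num))

theorem pr4b (X Y Z : SoM a) : trace ((ψ X).1 * (ψ X).1 * ((ψ Y).1 * (ψ Z).1)) =
    trace (X.1 * X.1 * (Y.1 * Z.1)) := by
  have h1 := pr4a ha ha' ψ hψ hn hn2 hn8 X (Y + Z)
  have h2 := pr4a ha ha' ψ hψ hn hn2 hn8 X Y
  have h3 := pr4a ha ha' ψ hψ hn hn2 hn8 X Z
  rw [map_add] at h1
  have e1 : ∀ (U A C : SoM a), trace (U.1 * U.1 * ((A + C).1 * (A + C).1)) =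
      trace (U.1 * U.1 * (A.1 * A.1)) + 2 * trace (U.1 * U.1 * (A.1 * C.1)) +
        trace (U.1 * U.1 * (C.1 * C.1)) := by
    intro U A C
    change trace (U.1 * U.1 * ((A.1 + C.1) * (A.1 + C.1))) = _
    rw [mul_add (A.1 + C.1), add_mul, add_mul, mul_add, mul_add, mul_add, trace_add, trace_add,
      trace_add, tr4s ha U C A]
    ring
  have e2 : ∀ (U A C : SoM a'), trace (U.1 * U.1 * ((A + C).1 * (A + C).1)) =
      trace (U.1 * U.1 * (A.1 * A.1)) + 2 * trace (U.1 * U.1 * (A.1 * C.1)) +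
        trace (U.1 * U.1 * (C.1 * C.1)) := by
    intro U A C
    change trace (U.1 * U.1 * ((A.1 + C.1) * (A.1 + C.1))) = _
    rw [mul_add (A.1 + C.1), add_mul, add_mul, mul_add, mul_add, mul_add, trace_add, trace_add,
      trace_add, tr4s ha' U C A]
    ring
  rw [e1, e2] at h1
  have h4 : (2 : k) * (trace ((ψ X).1 * (ψ X).1 * ((ψ Y).1 * (ψ Z).1)) -
      trace (X.1 * X.1 * (Y.1 * Z.1))) = 0 := by
    linear_combination h1 - h2 - h3
  exact sub_eq_zero.1 ((mul_eq_zero.1 h4).resolve_left two_ne_zero)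

/-- **The traces of words of length four are preserved.** -/
theorem pr4 (X U Y Z : SoM a) : trace ((ψ X).1 * (ψ U).1 * ((ψ Y).1 * (ψ Z).1)) =
    trace (X.1 * U.1 * (Y.1 * Z.1)) := by
  have h1 := pr4b ha ha' ψ hψ hn hn2 hn8 (X + U) Y Z
  have h2 := pr4b ha ha' ψ hψ hn hn2 hn8 X Y Z
  have h3 := pr4b ha ha' ψ hψ hn hn2 hn8 U Y Z
  have h5 := pr3 ha ha' ψ hψ hn hn2 (br ha X U) Y Z
  rw [map_add] at h1
  rw [hψ] at h5
  have e1 : ∀ (A C D E : SoM a), trace ((A + C).1 * (A + C).1 * (D.1 * E.1)) =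
      trace (A.1 * A.1 * (D.1 * E.1)) + trace (A.1 * C.1 * (D.1 * E.1)) +
        trace (C.1 * A.1 * (D.1 * E.1)) + trace (C.1 * C.1 * (D.1 * E.1)) := by
    intro A C D E
    change trace ((A.1 + C.1) * (A.1 + C.1) * (D.1 * E.1)) = _
    rw [mul_add (A.1 + C.1), add_mul, add_mul, add_mul, add_mul, add_mul, trace_add, trace_add,
      trace_add]
    ring
  have e2 : ∀ (A C D E : SoM a'), trace ((A + C).1 * (A + C).1 * (D.1 * E.1)) =
      trace (A.1 * A.1 * (D.1 * E.1)) + trace (A.1 * C.1 * (D.1 * E.1)) +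
        trace (C.1 * A.1 * (D.1 * E.1)) + trace (C.1 * C.1 * (D.1 * E.1)) := by
    intro A C D E
    change trace ((A.1 + C.1) * (A.1 + C.1) * (D.1 * E.1)) = _
    rw [mul_add (A.1 + C.1), add_mul, add_mul, add_mul, add_mul, add_mul, trace_add, trace_add,
      trace_add]
    ring
  have e3 : ∀ (A C D E : SoM a), trace ((br ha A C).1 * D.1 * E.1) =
      trace (A.1 * C.1 * (D.1 * E.1)) - trace (C.1 * A.1 * (D.1 * E.1)) := by
    intro A C D E
    change trace ((A.1 * C.1 - C.1 * A.1) * D.1 * E.1) = _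
    rw [sub_mul, sub_mul, trace_sub, mul_assoc (A.1 * C.1), mul_assoc (C.1 * A.1)]
  have e4 : ∀ (A C D E : SoM a'), trace ((br ha' A C).1 * D.1 * E.1) =
      trace (A.1 * C.1 * (D.1 * E.1)) - trace (C.1 * A.1 * (D.1 * E.1)) := by
    intro A C D E
    change trace ((A.1 * C.1 - C.1 * A.1) * D.1 * E.1) = _
    rw [sub_mul, sub_mul, trace_sub, mul_assoc (A.1 * C.1), mul_assoc (C.1 * A.1)]
  rw [e1, e2] at h1
  rw [e3, e4] at h5
  have h4 : (2 : k) * (trace ((ψ X).1 * (ψ U).1 * ((ψ Y).1 * (ψ Z).1)) -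
      trace (X.1 * U.1 * (Y.1 * Z.1))) = 0 := by
    linear_combination h1 - h2 - h3 + h5
  exact sub_eq_zero.1 ((mul_eq_zero.1 h4).resolve_left two_ne_zero)

end Pool.Agent.H20.TK
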