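import Mathlib
import Pool.Agent.H20.TK.Words

/-!
# Isomorphisms of orthogonal Lie algebras are induced by isomorphisms of the matrix algebras
-/

set_option autoImplicit false
set_option linter.unusedSectionVars false

namespace Pool.Agent.H20.TK

open Matrix Module Pool.Agent.H20.TI
open scoped TensorProduct

variable {k R R' : Type} [Field k] [CharZero k] [Fintype R] [DecidableEq R] [Fintype R']
  [DecidableEq R'] {a : R → k} {a' : R' → k}

theorem trace_single (A : Matrix R R k) (i j : R) : trace (A * single j i 1) = A i j := by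
  rw [trace, Finset.sum_eq_single i]
  · rw [diag_apply, mul_apply, Finset.sum_eq_single j]
    · rw [single_apply, if_pos ⟨rfl, rfl⟩, mul_one]
    · intro l _ hl
      rw [single_apply, if_neg (fun h => hl h.1.symm), mul_zero]
    · intro h
      exact absurd (Finset.mem_univ _) h
  · intro l _ hl
    rw [diag_apply, mul_apply]
    refine Finset.sum_eq_zero fun r _ => ?_
    rw [single_apply, if_neg (fun h => hl h.2.symm), mul_zero]
  · intro h
    exact absurd (Finset.mem_univ _) h

theorem eq_zero_of_trace {A : Matrix R R k} (h : ∀ C, trace (A * C) = 0) : A = 0 := by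
  ext i j
  rw [← trace_single A i j, h]
  rfl

/-- the multiplication map -/
noncomputable def mV (a : R → k) : SoM a ⊗[k] SoM a →ₗ[k] Matrix R R k :=
  LinearMap.mul' k (Matrix R R k) ∘ₗ TensorProduct.map (SoM a).subtype (SoM a).subtype

theorem mV_tmul (X Y : SoM a) : mV a (X ⊗ₜ Y) = X.1 * Y.1 := rfl

theorem mV_surj (ha : ∀ i, a i ≠ 0) (hc : 3 ≤ Fintype.card R) : Function.Surjective (mV a) := by
  rw [← LinearMap.range_eq_top, eq_top_iff]
  have hEE : ∀ i j l m, EE a i j * EE a l m ∈ LinearMap.range (mV a) := fun i j l m =>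
    ⟨(⟨EE a i j, EE_mem a i j⟩ : SoM a) ⊗ₜ (⟨EE a l m, EE_mem a l m⟩ : SoM a), rfl⟩
  have h1 : ∀ i j, i ≠ j → (single i j 1 : Matrix R R k) ∈ LinearMap.range (mV a) := by
    intro i j hij
    obtain ⟨l, hl⟩ := exists_new ({i, j} : Finset R) (lt_of_le_of_lt Finset.card_le_two (by omega))
    have hli : l ≠ i := fun h => hl (by simp [h])
    have hlj : l ≠ j := fun h => hl (by simp [h])
    have h2 : (single i j 1 : Matrix R R k) = (a l * a j)⁻¹ • (EE a i l * EE a l j) := by
      ext s t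
      rw [Matrix.smul_apply, EE_mul a (Ne.symm hli), smul_eq_mul]
      have g1 := ha l
      have g2 := ha j
      simp only [EE_apply, single_apply]
      by_cases hs : s = i
      · subst hs
        by_cases ht : t = j
        · subst ht
          simp [hij, hli, hlj]
          field_simp
        · simp [ht, Ne.symm ht, hli, hlj, hij, Ne.symm hlj]
      · by_cases hsl : s = l
        · subst hsl
          simp [hli, Ne.symm hli, hlj, Ne.symm hij, hij]
        · simp [hs, hsl, Ne.symm hs]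
    rw [h2]
    exact Submodule.smul_mem _ _ (hEE _ _ _ _)
  have h3 : ∀ i j, i ≠ j → (single i i 1 + single j j 1 : Matrix R R k) ∈
      LinearMap.range (mV a) := by
    intro i j hij
    have h2 : (single i i 1 + single j j 1 : Matrix R R k) =
        (-(a i * a j)⁻¹) • (EE a i j * EE a i j) := by
      ext s t
      rw [Matrix.smul_apply, EE_mul a hij, smul_eq_mul, Matrix.add_apply]
      have g1 := ha i
      have g2 := ha j
      simp only [EE_apply, single_apply]
      by_cases hs : s = i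
      · subst hs
        by_cases ht : t = s
        · subst ht
          simp [hij, Ne.symm hij]
          field_simp
        · simp [ht, Ne.symm ht, hij, Ne.symm hij]
      · by_cases hsl : s = j
        · subst hsl
          by_cases ht : t = s
          · subst ht
            simp [hij, Ne.symm hij]
            field_simp
          · simp [ht, Ne.symm ht, hij, Ne.symm hij]
        · simp [hs, hsl, Ne.symm hs, Ne.symm hsl]
    rw [h2]
    exact Submodule.smul_mem _ _ (hEE _ _ _ _)
  have h4 : ∀ i, (single i i 1 : Matrix R R k) ∈ LinearMap.range (mV a) := by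
    intro i
    obtain ⟨j, hj⟩ := exists_new ({i} : Finset R) (by rw [Finset.card_singleton]; omega)
    have hji : i ≠ j := fun h => hj (by simp [h])
    obtain ⟨l, hl⟩ := exists_new ({i, j} : Finset R) (lt_of_le_of_lt Finset.card_le_two (by omega))
    have hli : i ≠ l := fun h => hl (by simp [h])
    have hlj : j ≠ l := fun h => hl (by simp [h])
    have h5 : (single i i 1 : Matrix R R k) = (2 : k)⁻¹ •
        ((single i i 1 + single j j 1) + (single i i 1 + single l l 1) -
          (single j j 1 + single l l 1)) := by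
      have h6 : ((single i i 1 + single j j 1) + (single i i 1 + single l l 1) -
          (single j j 1 + single l l 1) : Matrix R R k) = (2 : k) • single i i 1 := by
        rw [two_smul]
        abel
      rw [h6, smul_smul, inv_mul_cancel₀ two_ne_zero, one_smul]
    rw [h5]
    exact Submodule.smul_mem _ _ (sub_mem (add_mem (h3 i j hji) (h3 i l hli)) (h3 j l hlj))
  intro A _
  rw [matrix_eq_sum_single A]
  refine Submodule.sum_mem _ fun i _ => Submodule.sum_mem _ fun j _ => ?_
  have h5 : (single i j (A i j) : Matrix R R k) = A i j • single i j 1 := by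
    rw [smul_single, smul_eq_mul, mul_one]
  rw [h5]
  refine Submodule.smul_mem _ _ ?_
  by_cases hij : i = j
  · subst hij
    exact h4 i
  · exact h1 i j hij

variable (ha : ∀ i, a i ≠ 0) (ha' : ∀ i, a' i ≠ 0) (ψ : SoM a ≃ₗ[k] SoM a')

/-- the multiplication map, after `ψ` -/
noncomputable def mW : SoM a ⊗[k] SoM a →ₗ[k] Matrix R' R' k :=
  mV a' ∘ₗ TensorProduct.map ψ.toLinearMap ψ.toLinearMap

theorem mW_tmul (X Y : SoM a) : mW ψ (X ⊗ₜ Y) = (ψ X).1 * (ψ Y).1 := rfl

include ha' in
theorem mW_surj (hc' : 3 ≤ Fintype.card R') : Function.Surjective (mW ψ) := by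
  intro A
  obtain ⟨τ, hτ⟩ := mV_surj ha' hc' A
  refine ⟨TensorProduct.map ψ.symm.toLinearMap ψ.symm.toLinearMap τ, ?_⟩
  rw [← hτ]
  clear hτ
  induction τ using TensorProduct.induction_on with
  | zero => simp
  | tmul X Y =>
    rw [TensorProduct.map_tmul, mW_tmul, mV_tmul]
    change (ψ (ψ.symm X)).1 * (ψ (ψ.symm Y)).1 = _
    rw [LinearEquiv.apply_symm_apply, LinearEquiv.apply_symm_apply]
  | add x y h1 h2 =>
    rw [map_add, map_add, map_add, h1, h2]

variable (hψ : ∀ X Y, ψ (br ha X Y) = br ha' (ψ X) (ψ Y))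
  (hn : Fintype.card R = Fintype.card R') (hc : 3 ≤ Fintype.card R) (hn8 : Fintype.card R ≠ 8)
include hψ hn hc hn8

theorem pairing (τ σ : SoM a ⊗[k] SoM a) :
    trace (mW ψ τ * mW ψ σ) = trace (mV a τ * mV a σ) := by
  induction τ using TensorProduct.induction_on with
  | zero => rw [map_zero, map_zero, zero_mul, zero_mul, trace_zero, trace_zero]
  | tmul X Y =>
    induction σ using TensorProduct.induction_on with
    | zero => rw [map_zero, map_zero, mul_zero, mul_zero, trace_zero, trace_zero]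
    | tmul Z U =>
      rw [mW_tmul, mW_tmul, mV_tmul, mV_tmul]
      exact pr4 ha ha' ψ hψ hn (by omega) hn8 X Y Z U
    | add x y h1 h2 =>
      rw [map_add, map_add, mul_add, mul_add, trace_add, trace_add, h1, h2]
  | add x y h1 h2 =>
    rw [map_add, map_add, add_mul, add_mul, trace_add, trace_add, h1, h2]

/-- **The isomorphism of the matrix algebras.** -/
theorem exists_phi : ∃ Φ : Matrix R R k ≃ₐ[k] Matrix R' R' k, ∀ X : SoM a, Φ X.1 = (ψ X).1 := by
  have hc' : 3 ≤ Fintype.card R' := by omega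
  have hsV := mV_surj ha hc
  have hsW := mW_surj ha' ψ hc'
  have hpair := pairing ha ha' ψ hψ hn hc hn8
  have hker : ∀ τ, mV a τ = 0 → mW ψ τ = 0 := by
    intro τ hτ
    refine eq_zero_of_trace fun C => ?_
    obtain ⟨σ, rfl⟩ := hsW C
    rw [hpair, hτ, zero_mul, trace_zero]
  obtain ⟨r, hr⟩ := (mV a).exists_rightInverse_of_surjective (LinearMap.range_eq_top.2 hsV)
  obtain ⟨Φ, hΦd⟩ : ∃ Φ, Φ = mW ψ ∘ₗ r := ⟨_, rfl⟩
  have hΦ : ∀ τ, Φ (mV a τ) = mW ψ τ := by
    intro τ
    have h1 := hker (r (mV a τ) - τ) (by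
      rw [map_sub]
      have h2 := LinearMap.congr_fun hr (mV a τ)
      rw [LinearMap.comp_apply, LinearMap.id_apply] at h2
      rw [h2, sub_self])
    rw [map_sub, sub_eq_zero] at h1
    rw [hΦd]
    exact h1
  have hΦ2 : ∀ X Y : SoM a, Φ (X.1 * Y.1) = (ψ X).1 * (ψ Y).1 := fun X Y => hΦ (X ⊗ₜ Y)
  have htr : ∀ A C, trace (Φ A * Φ C) = trace (A * C) := by
    intro A C
    obtain ⟨τ, rfl⟩ := hsV A
    obtain ⟨σ, rfl⟩ := hsV C
    rw [hΦ, hΦ, hpair]
  have hΦ1 : ∀ U : SoM a, Φ U.1 = (ψ U).1 := by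
    intro U
    refine sub_eq_zero.1 (eq_zero_of_trace fun C => ?_)
    obtain ⟨σ, rfl⟩ := hsW C
    rw [sub_mul, trace_sub, ← hΦ, htr, sub_eq_zero, hΦ]
    induction σ using TensorProduct.induction_on with
    | zero => rw [map_zero, map_zero, mul_zero, mul_zero, trace_zero, trace_zero]
    | tmul X Y =>
      rw [mW_tmul, mV_tmul, ← mul_assoc, ← mul_assoc]
      exact (pr3 ha ha' ψ hψ hn (by omega) U X Y).symm
    | add x y h1 h2 =>
      rw [map_add, map_add, mul_add, mul_add, trace_add, trace_add, h1, h2]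
  have hadj : ∀ A, Φ (adj a A) = adj a' (Φ A) := by
    intro A
    obtain ⟨τ, rfl⟩ := hsV A
    induction τ using TensorProduct.induction_on with
    | zero => rw [map_zero, map_zero, map_zero, map_zero]
    | tmul X Y =>
      rw [mV_tmul, adj_mul ha, adj_mem ha X.2, adj_mem ha Y.2, neg_mul_neg, hΦ2, hΦ2,
        adj_mul ha', adj_mem ha' (ψ X).2, adj_mem ha' (ψ Y).2, neg_mul_neg]
    | add x y h1 h2 => rw [map_add, map_add, map_add, map_add, map_add, h1, h2]
  -- words of length three
  obtain ⟨f, hf⟩ : ∃ f : SoM a → SoM a → SoM a → Matrix R' R' k, f = fun X Y Z =>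
    Φ (X.1 * Y.1 * Z.1) - (ψ X).1 * (ψ Y).1 * (ψ Z).1 := ⟨_, rfl⟩
  have hf' : ∀ X Y Z, f X Y Z = Φ (X.1 * Y.1 * Z.1) - (ψ X).1 * (ψ Y).1 * (ψ Z).1 :=
    fun X Y Z => by rw [hf]
  have hbr : ∀ X Y : SoM a, (ψ X).1 * (ψ Y).1 - (ψ Y).1 * (ψ X).1 = (ψ (br ha X Y)).1 := by
    intro X Y
    rw [hψ]
    rfl
  have hsw1 : ∀ X Y Z, f X Y Z = f Y X Z := by
    intro X Y Z
    rw [← sub_eq_zero, hf', hf']
    have h1 := hΦ2 (br ha X Y) Z
    rw [← hbr] at h1
    change Φ ((X.1 * Y.1 - Y.1 * X.1) * Z.1) = _ at h1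
    rw [sub_mul, map_sub, sub_mul] at h1
    rw [sub_sub_sub_comm, h1, sub_self]
  have hsw2 : ∀ X Y Z, f X Y Z = f X Z Y := by
    intro X Y Z
    rw [← sub_eq_zero, hf', hf']
    have h1 := hΦ2 X (br ha Y Z)
    rw [← hbr] at h1
    change Φ (X.1 * (Y.1 * Z.1 - Z.1 * Y.1)) = _ at h1
    rw [mul_sub, map_sub, mul_sub, ← mul_assoc, ← mul_assoc, ← mul_assoc, ← mul_assoc] at h1
    rw [sub_sub_sub_comm, h1, sub_self]
  have hft : ∀ X Y Z, ∀ W ∈ SoM a', trace (f X Y Z * W) = 0 := by
    intro X Y Z W hW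
    obtain ⟨U, hU⟩ := ψ.surjective ⟨W, hW⟩
    have hW' : W = (ψ U).1 := by rw [hU]
    rw [hf', sub_mul, trace_sub, hW']
    have h1 := htr (X.1 * Y.1 * Z.1) U.1
    rw [hΦ1 U] at h1
    have h2 := pr4 ha ha' ψ hψ hn (by omega) hn8 X Y Z U
    rw [h1, mul_assoc ((ψ X).1 * (ψ Y).1), h2, mul_assoc (X.1 * Y.1), sub_self]
  have hfa : ∀ X Y Z, adj a' (f X Y Z) = f X Y Z := by
    intro X Y Z
    refine (sub_eq_zero.1 (eq_zero_of_trace fun C => ?_)).symm
    have h1 : trace (adj a' (f X Y Z) * C) = trace (f X Y Z * adj a' C) := by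
      rw [← trace_adj ha', adj_mul ha', adj_adj ha', trace_mul_comm]
    have h2 := hft X Y Z (C - adj a' C) (by
      rw [mem_iff_adj ha', map_sub, adj_adj ha', neg_sub])
    rw [mul_sub, trace_sub] at h2
    rw [sub_mul, trace_sub, h1, h2]
  have hfr : ∀ X Y Z, adj a' (f X Y Z) = -f Z Y X := by
    intro X Y Z
    rw [hf', hf', map_sub, ← hadj, adj_mul ha, adj_mul ha, adj_mul ha', adj_mul ha',
      adj_mem ha X.2, adj_mem ha Y.2, adj_mem ha Z.2, adj_mem ha' (ψ X).2, adj_mem ha' (ψ Y).2,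
      adj_mem ha' (ψ Z).2]
    have h1 : -Z.1 * (-Y.1 * -X.1) = -(Z.1 * Y.1 * X.1) := by noncomm_ring
    have h2 : -(ψ Z).1 * (-(ψ Y).1 * -(ψ X).1) = -((ψ Z).1 * (ψ Y).1 * (ψ X).1) := by
      noncomm_ring
    rw [h1, h2, map_neg]
    abel
  have hf0 : ∀ X Y Z, Φ (X.1 * Y.1 * Z.1) = (ψ X).1 * (ψ Y).1 * (ψ Z).1 := by
    intro X Y Z
    rw [← sub_eq_zero, ← hf']
    have h1 : f X Y Z = -f X Y Z := by
      conv_lhs => rw [← hfa, hfr, hsw2, hsw1, hsw2]
    have h2 : (2 : k) • f X Y Z = 0 := by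
      rw [two_smul]
      nth_rw 1 [h1]
      rw [neg_add_cancel]
    exact (smul_eq_zero.1 h2).resolve_left two_ne_zero
  have hm1 : ∀ (X : SoM a) (A : Matrix R R k), Φ (X.1 * A) = (ψ X).1 * Φ A := by
    intro X A
    obtain ⟨τ, rfl⟩ := hsV A
    induction τ using TensorProduct.induction_on with
    | zero => rw [map_zero, mul_zero, map_zero, mul_zero]
    | tmul Y Z =>
      rw [mV_tmul, ← mul_assoc, hf0, hΦ2, mul_assoc]
    | add x y h1 h2 => rw [map_add, mul_add, map_add, h1, h2, map_add, mul_add]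
  have hm2 : ∀ A C : Matrix R R k, Φ (A * C) = Φ A * Φ C := by
    intro A C
    obtain ⟨τ, rfl⟩ := hsV A
    induction τ using TensorProduct.induction_on with
    | zero => rw [map_zero, zero_mul, map_zero, zero_mul]
    | tmul X Y =>
      rw [mV_tmul, mul_assoc, hm1, hm1, hΦ2, mul_assoc]
    | add x y h1 h2 => rw [map_add, add_mul, map_add, h1, h2, map_add, add_mul]
  have hsurj : Function.Surjective Φ := by
    intro C
    obtain ⟨σ, rfl⟩ := hsW C
    exact ⟨_, hΦ σ⟩
  have hinj : Function.Injective Φ := by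
    rw [← LinearMap.ker_eq_bot, LinearMap.ker_eq_bot']
    intro A hA
    refine eq_zero_of_trace fun C => ?_
    rw [← htr, hA, zero_mul, trace_zero]
  have hone : Φ 1 = 1 := by
    obtain ⟨A, hA⟩ := hsurj 1
    have h1 := hm2 1 A
    rw [one_mul, hA, mul_one] at h1
    exact h1.symm
  exact ⟨AlgEquiv.ofBijective (AlgHom.ofLinearMap Φ hone hm2) ⟨hinj, hsurj⟩, fun X => hΦ1 X⟩

end Pool.Agent.H20.TK
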