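import Mathlib
import Pool.Agent.H20.TK.Phi
import Pool.Agent.H20.TI.Dim
import Pool.Agent.H20.TH.Links

/-!
# Links of symmetric forms
-/

set_option autoImplicit false
set_option linter.unusedSectionVars false

namespace Pool.Agent.H20.TK

open Matrix Module Pool.Agent.Y114.MU Pool.Agent.Y114.TF Pool.Agent.H20.TB Pool.Agent.H20.TD
  Pool.Agent.H20.TH Pool.Agent.H20.TI

section two

variable {k V W : Type} [Field k] [CharZero k] [AddCommGroup V] [Module k V]
  [FiniteDimensional k V] [AddCommGroup W] [Module k W] [FiniteDimensional k W]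
  {ω : V →ₗ[k] V →ₗ[k] k} {η : W →ₗ[k] W →ₗ[k] k}

/-- an operator which commutes with the Lie algebra of a symmetric form is a scalar -/
theorem scalar_of_comm (hs : ∀ u v, ω u v = ω v u) (hnd : ∀ u, (∀ v, ω v u = 0) → u = 0)
    (hc : 3 ≤ finrank k V) {C : End k V} (hC : ∀ X ∈ SpL ω, C * X = X * C) :
    ∃ c : k, ∀ x, C x = c • x := by
  obtain ⟨e, h1, h2⟩ := ortho_basis ω hs hnd
  let τ := LinearMap.toMatrixAlgEquiv e
  have hm := fun X : End k V => mem_SoM_iff ω hs e h1 (X := X)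
  have h3 : ∀ A : Matrix (Fin (finrank k V)) (Fin (finrank k V)) k, τ C * A = A * τ C := by
    intro A
    obtain ⟨σ, rfl⟩ := mV_surj h2 (by rw [Fintype.card_fin]; exact hc) A
    have h4 : ∀ X : SoM (fun i => ω (e i) (e i)), τ C * X.1 = X.1 * τ C := by
      intro X
      have h5 : τ.symm X.1 ∈ SpL ω := by
        rw [hm]
        change τ (τ.symm X.1) ∈ _
        rw [AlgEquiv.apply_symm_apply]
        exact X.2
      have h6 := congrArg τ (hC _ h5)
      rw [map_mul, map_mul, AlgEquiv.apply_symm_apply] at h6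
      exact h6
    induction σ using TensorProduct.induction_on with
    | zero => rw [map_zero, mul_zero, zero_mul]
    | tmul X Y =>
      rw [mV_tmul, ← mul_assoc, h4, mul_assoc, h4, mul_assoc]
    | add x y g1 g2 => rw [map_add, mul_add, add_mul, g1, g2]
  have h4 : τ C ∈ Subalgebra.center k (Matrix (Fin (finrank k V)) (Fin (finrank k V)) k) :=
    Subalgebra.mem_center_iff.2 fun A => (h3 A).symm
  have h5 := Algebra.IsCentral.out (K := k) h4
  obtain ⟨c, hc'⟩ := Algebra.mem_bot.1 h5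
  refine ⟨c, fun x => ?_⟩
  have h6 : C = algebraMap k (End k V) c := by
    apply τ.injective
    rw [← hc', AlgEquiv.commutes]
  rw [h6]
  rfl

/-- **Isomorphisms of the Lie algebras of symmetric forms are induced by similitudes.** -/
theorem exists_simil (hs : ∀ u v, ω u v = ω v u) (hnd : ∀ u, (∀ v, ω v u = 0) → u = 0)
    (hs' : ∀ u v, η u v = η v u) (hnd' : ∀ u, (∀ v, η v u = 0) → u = 0)
    (hn : finrank k V = finrank k W) (hc : 3 ≤ finrank k V) (hn8 : finrank k V ≠ 8)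
    (ψ : SpL ω ≃ₗ[k] SpL η)
    (hψ : ∀ X Y Z : SpL ω, Z.1 = X.1 * Y.1 - Y.1 * X.1 →
      (ψ Z).1 = (ψ X).1 * (ψ Y).1 - (ψ Y).1 * (ψ X).1) :
    ∃ (g : W →ₗ[k] V) (c : k), Function.Bijective g ∧ c ≠ 0 ∧
      (∀ X : SpL ω, ∀ x, g ((ψ X).1 x) = X.1 (g x)) ∧ ∀ x y, η x y = c * ω (g x) (g y) := by
  obtain ⟨e, h1, h2⟩ := ortho_basis ω hs hnd
  obtain ⟨e', h1', h2'⟩ := ortho_basis η hs' hnd'
  let τ := LinearMap.toMatrixAlgEquiv e
  let τ' := LinearMap.toMatrixAlgEquiv e'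
  have hm := fun X : End k V => mem_SoM_iff ω hs e h1 (X := X)
  have hm' := fun X : End k W => mem_SoM_iff η hs' e' h1' (X := X)
  let s : SpL ω ≃ₗ[k] SoM (fun i => ω (e i) (e i)) :=
    { toFun := fun X => ⟨τ X.1, (hm X.1).1 X.2⟩
      map_add' := fun X Y => Subtype.ext (map_add τ X.1 Y.1)
      map_smul' := fun c X => Subtype.ext (map_smul τ c X.1)
      invFun := fun Y => ⟨τ.symm Y.1, (hm _).2 (by
        change τ (τ.symm Y.1) ∈ _
        rw [AlgEquiv.apply_symm_apply]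
        exact Y.2)⟩
      left_inv := fun X => Subtype.ext (τ.symm_apply_apply X.1)
      right_inv := fun Y => Subtype.ext (τ.apply_symm_apply Y.1) }
  let s' : SpL η ≃ₗ[k] SoM (fun i => η (e' i) (e' i)) :=
    { toFun := fun X => ⟨τ' X.1, (hm' X.1).1 X.2⟩
      map_add' := fun X Y => Subtype.ext (map_add τ' X.1 Y.1)
      map_smul' := fun c X => Subtype.ext (map_smul τ' c X.1)
      invFun := fun Y => ⟨τ'.symm Y.1, (hm' _).2 (by
        change τ' (τ'.symm Y.1) ∈ _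
        rw [AlgEquiv.apply_symm_apply]
        exact Y.2)⟩
      left_inv := fun X => Subtype.ext (τ'.symm_apply_apply X.1)
      right_inv := fun Y => Subtype.ext (τ'.apply_symm_apply Y.1) }
  have hs1 : ∀ X, (s X).1 = τ X.1 := fun _ => rfl
  have hs2 : ∀ X, (s' X).1 = τ' X.1 := fun _ => rfl
  have hs3 : ∀ Y, (s.symm Y).1 = τ.symm Y.1 := fun _ => rfl
  obtain ⟨Φ, hΦ⟩ := exists_phi h2 h2' (s.symm.trans (ψ.trans s')) (by
    intro X Y
    refine Subtype.ext ?_
    have h3 := hψ (s.symm X) (s.symm Y) (s.symm (br h2 X Y)) (by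
      rw [hs3, hs3, hs3]
      change τ.symm (X.1 * Y.1 - Y.1 * X.1) = _
      rw [map_sub, map_mul, map_mul])
    change τ' (ψ (s.symm (br h2 X Y))).1 =
      τ' (ψ (s.symm X)).1 * τ' (ψ (s.symm Y)).1 - τ' (ψ (s.symm Y)).1 * τ' (ψ (s.symm X)).1
    rw [h3, map_sub, map_mul, map_mul])
    (by rw [Fintype.card_fin, Fintype.card_fin, hn]) (by rw [Fintype.card_fin]; exact hc)
    (by rw [Fintype.card_fin]; exact hn8)
  obtain ⟨t, ht⟩ := ((τ.trans Φ).trans τ'.symm).eq_linearEquivConjAlgEquiv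
  have hX : ∀ X : SpL ω, (ψ X).1 = t.toLinearMap ∘ₗ X.1 ∘ₗ t.symm.toLinearMap := by
    intro X
    have h3 := AlgEquiv.congr_fun ht X.1
    have h4 := hΦ (s X)
    have h5 : (ψ X).1 = ((τ.trans Φ).trans τ'.symm) X.1 := by
      change _ = τ'.symm (Φ (τ X.1))
      rw [AlgEquiv.eq_symm_apply]
      change Φ (τ X.1) = τ' (ψ (s.symm (s X))).1 at h4
      rw [h4, LinearEquiv.symm_apply_apply]
    rw [h5, h3]
    rfl
  have hg : ∀ X : SpL ω, ∀ x, t.symm ((ψ X).1 x) = X.1 (t.symm x) := by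
    intro X x
    rw [hX]
    change t.symm (t (X.1 (t.symm x))) = _
    rw [LinearEquiv.symm_apply_apply]
  -- the forms
  have hndl : ∀ u, (∀ v, η u v = 0) → u = 0 := fun u h => hnd' u fun v => by rw [hs']; exact h v
  obtain ⟨C, hC⟩ := exists_rep η hndl (ω.compl₁₂ t.symm.toLinearMap t.symm.toLinearMap)
  have hC' : ∀ x y, η (C x) y = ω (t.symm x) (t.symm y) := hC
  obtain ⟨c, hc'⟩ := scalar_of_comm hs' hnd' (by rw [← hn]; exact hc) (C := C) (by
    intro Y hY
    obtain ⟨X, hXY⟩ := ψ.surjective ⟨Y, hY⟩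
    have hY' : Y = (ψ X).1 := by rw [hXY]
    refine LinearMap.ext fun x => ?_
    refine sub_eq_zero.1 (hndl _ fun y => ?_)
    rw [map_sub, LinearMap.sub_apply, Module.End.mul_apply, Module.End.mul_apply, hC']
    have h3 := hY (C x) y
    have h4 : η (C x) (Y y) = ω (t.symm x) (X.1 (t.symm y)) := by
      rw [hC', hY', hg]
    have h5 : t.symm (Y x) = X.1 (t.symm x) := by rw [hY', hg]
    have h6 := X.2 (t.symm x) (t.symm y)
    rw [h5]
    rw [h4] at h3
    linear_combination h6 - h3)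
  have hform : ∀ x y, ω (t.symm x) (t.symm y) = c * η x y := by
    intro x y
    rw [← hC', hc', map_smul, LinearMap.smul_apply, smul_eq_mul]
  have hc0 : c ≠ 0 := by
    rintro rfl
    obtain ⟨v, hv⟩ : ∃ v : V, v ≠ 0 := by
      have h0 : 0 < finrank k V := by omega
      have : Nontrivial V := Module.finrank_pos_iff.1 h0
      exact exists_ne 0
    refine hv (hnd v fun u => ?_)
    have h3 := hform (t u) (t v)
    rw [LinearEquiv.symm_apply_apply, LinearEquiv.symm_apply_apply, zero_mul] at h3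
    exact h3
  refine ⟨t.symm.toLinearMap, c⁻¹, t.symm.bijective, inv_ne_zero hc0, hg, fun x y => ?_⟩
  rw [LinearEquiv.coe_coe, hform, ← mul_assoc, inv_mul_cancel₀ hc0, one_mul]

end two

section pair

variable {k : Type} [Field k] [CharZero k] {ι : Type} [Fintype ι] {V : ι → Type}
  [∀ i, AddCommGroup (V i)] [∀ i, Module k (V i)] [∀ i, FiniteDimensional k (V i)]
  (ω : ∀ i, V i →ₗ[k] V i →ₗ[k] k) (𝔞 : Submodule k (∀ i, End k (V i)))

theorem link_pair_symm (hnd : ∀ i u, (∀ v, ω i v u = 0) → u = 0)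
    (hsp : ∀ A ∈ 𝔞, ∀ i, A i ∈ SpL (ω i))
    (hbr : ∀ A ∈ 𝔞, ∀ B ∈ 𝔞, (fun i => A i * B i - B i * A i) ∈ 𝔞)
    (hsurj : ∀ i, ∀ X ∈ SpL (ω i), ∃ A ∈ 𝔞, A i = X) {i j : ι}
    (hi : ∀ u v, ω i u v = ω i v u) (hj : ∀ u v, ω j u v = ω j v u)
    (hi3 : 3 ≤ finrank k (V i)) (hj3 : 3 ≤ finrank k (V j)) (hi8 : finrank k (V i) ≠ 8)
    (hij : ∀ A ∈ 𝔞, A i = 0 → A j = 0) (hji : ∀ A ∈ 𝔞, A j = 0 → A i = 0) : Lk ω 𝔞 i j := by
  let π : ∀ l, 𝔞 →ₗ[k] SpL (ω l) := fun l =>
    { toFun := fun A => ⟨A.1 l, hsp A.1 A.2 l⟩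
      map_add' := fun _ _ => rfl
      map_smul' := fun _ _ => rfl }
  have hπ : ∀ l, Function.Surjective (π l) := by
    rintro l ⟨X, hX⟩
    obtain ⟨A, hA, h⟩ := hsurj l X hX
    exact ⟨⟨A, hA⟩, Subtype.ext h⟩
  have hk : LinearMap.ker (π i) = LinearMap.ker (π j) := by
    ext A
    constructor
    · intro h
      exact Subtype.ext (hij A.1 A.2 (congrArg Subtype.val h))
    · intro h
      exact Subtype.ext (hji A.1 A.2 (congrArg Subtype.val h))
  let ψ : SpL (ω i) ≃ₗ[k] SpL (ω j) := ((π i).quotKerEquivOfSurjective (hπ i)).symm.trans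
    ((Submodule.quotEquivOfEq _ _ hk).trans ((π j).quotKerEquivOfSurjective (hπ j)))
  have hψ : ∀ A : 𝔞, ψ (π i A) = π j A := by
    intro A
    have h1 : ((π i).quotKerEquivOfSurjective (hπ i)).symm (π i A) = Submodule.Quotient.mk A := by
      rw [LinearEquiv.symm_apply_eq]
      rfl
    change ((π j).quotKerEquivOfSurjective (hπ j)) ((Submodule.quotEquivOfEq _ _ hk)
      (((π i).quotKerEquivOfSurjective (hπ i)).symm (π i A))) = _
    rw [h1]
    rfl
  have hfin : finrank k (V i) = finrank k (V j) := by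
    have h1 := ψ.finrank_eq
    rw [finrank_symm hi (hnd i), finrank_symm hj (hnd j)] at h1
    obtain ⟨n, hn⟩ : ∃ n, n = finrank k (V i) := ⟨_, rfl⟩
    obtain ⟨m, hm⟩ : ∃ m, m = finrank k (V j) := ⟨_, rfl⟩
    rw [← hn, ← hm] at h1 ⊢
    rw [← hn] at hi3
    rw [← hm] at hj3
    have e1 := (card_lt n).1
    have e2 := (card_lt m).1
    have e3 : n * (n - 1) = m * (m - 1) := by omega
    obtain ⟨n, rfl⟩ : ∃ n', n = n' + 1 := ⟨n - 1, by omega⟩
    obtain ⟨m, rfl⟩ : ∃ m', m = m' + 1 := ⟨m - 1, by omega⟩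
    rw [Nat.add_sub_cancel, Nat.add_sub_cancel] at e3
    rcases lt_trichotomy n m with h | h | h
    · nlinarith
    · rw [h]
    · nlinarith
  obtain ⟨g, c, h1, h2, h3, h4⟩ := exists_simil hi (hnd i) hj (hnd j) hfin hi3 hi8 ψ (by
    intro X Y Z hZ
    obtain ⟨A, rfl⟩ := hπ i X
    obtain ⟨C, rfl⟩ := hπ i Y
    have h5 : Z = π i ⟨_, hbr A.1 A.2 C.1 C.2⟩ := Subtype.ext hZ
    rw [h5, hψ, hψ, hψ]
    rfl)
  refine ⟨g, c, h1, h2, fun A hA x => ?_, h4⟩
  have h5 := h3 (π i ⟨A, hA⟩) x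
  rw [hψ] at h5
  exact h5

end pair

end Pool.Agent.H20.TK
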