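import Mathlib
import Pool.Agent.H20.TK.Pair
import Pool.Agent.H20.TH.Links

/-!
# Goursat's lemma with links, for alternating and symmetric forms
-/

set_option autoImplicit false
set_option linter.unusedSectionVars false

namespace Pool.Agent.H20.TK

open Module Pool.Agent.Y114.MU Pool.Agent.Y114.TF Pool.Agent.H20.TB Pool.Agent.H20.TD
  Pool.Agent.H20.TH Pool.Agent.H20.TI

variable {k : Type} [Field k] [CharZero k] {ι : Type} [Fintype ι] {V : ι → Type}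
  [∀ i, AddCommGroup (V i)] [∀ i, Module k (V i)] [∀ i, FiniteDimensional k (V i)]
  (ω : ∀ i, V i →ₗ[k] V i →ₗ[k] k) (𝔞 : Submodule k (∀ i, End k (V i)))

/-- a form is alternating, or symmetric in dimension three or at least five -/
def Kind (i : ι) : Prop := (∀ v, ω i v v = 0) ∨
  ((∀ u v, ω i u v = ω i v u) ∧ (finrank k (V i) = 3 ∨ 5 ≤ finrank k (V i)))

theorem link_pair [DecidableEq ι] (hnd : ∀ i u, (∀ v, ω i v u = 0) → u = 0)
    (hsp : ∀ A ∈ 𝔞, ∀ i, A i ∈ SpL (ω i))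
    (hbr : ∀ A ∈ 𝔞, ∀ B ∈ 𝔞, (fun i => A i * B i - B i * A i) ∈ 𝔞)
    (hV : ∀ i, ∃ v : V i, v ≠ 0)
    (hsurj : ∀ i, ∀ X ∈ SpL (ω i), ∃ A ∈ 𝔞, A i = X) {i j : ι}
    (hi : ∀ v, ω i v v = 0) (hj : ∀ v, ω j v v = 0)
    (hij : ∀ A ∈ 𝔞, A i = 0 → A j = 0) (hji : ∀ A ∈ 𝔞, A j = 0 → A i = 0) : Lk ω 𝔞 i j := by
  classical
  let T := {l : ι // ∀ v, ω l v v = 0}
  let res : (∀ i, End k (V i)) →ₗ[k] (∀ c : T, End k (V c.1)) :=
    LinearMap.pi fun c => LinearMap.proj c.1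
  obtain ⟨δ, hδ⟩ := hV j
  obtain ⟨g, c, hg, hc, h1, h2⟩ := exists_link (fun c : T => ω c.1) (𝔞.map res) (fun c => c.2)
    (fun c => hnd c.1) (by
      rintro _ ⟨A, hA, rfl⟩ c
      exact hsp A hA c.1) (by
      rintro _ ⟨A, hA, rfl⟩ _ ⟨B, hB, rfl⟩
      exact ⟨_, hbr A hA B hB, rfl⟩) (i := ⟨i, hi⟩) (j := ⟨j, hj⟩) (by
      intro X hX
      obtain ⟨A, hA, h⟩ := hsurj i X hX
      exact ⟨_, ⟨A, hA, rfl⟩, h⟩) (by
      intro X hX
      obtain ⟨A, hA, h⟩ := hsurj j X hX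
      exact ⟨_, ⟨A, hA, rfl⟩, h⟩) (by
      rintro _ ⟨A, hA, rfl⟩ h
      exact hij A hA h) (by
      rintro _ ⟨A, hA, rfl⟩ h
      exact hji A hA h) hδ
  exact ⟨g, c, hg, hc, fun A hA x => h1 _ ⟨A, hA, rfl⟩ x, h2⟩

/-- **Goursat's lemma with links.** -/
theorem goursat_mixed (K : ι → ι → Prop) (hKs : ∀ i j, K i j → K j i)
    (hKt : ∀ i j l, K i j → K j l → K i l)
    (hKd : ∀ i j, K i j → ((∀ v, ω i v v = 0) ∧ ∀ v, ω j v v = 0) ∨
      ((∀ u v, ω i u v = ω i v u) ∧ (∀ u v, ω j u v = ω j v u) ∧ 3 ≤ finrank k (V i) ∧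
        3 ≤ finrank k (V j) ∧ finrank k (V i) ≠ 8))
    (hkind : ∀ i, Kind ω i) (hnd : ∀ i u, (∀ v, ω i v u = 0) → u = 0)
    (hsp : ∀ A ∈ 𝔞, ∀ i, A i ∈ SpL (ω i))
    (hbr : ∀ A ∈ 𝔞, ∀ B ∈ 𝔞, (fun i => A i * B i - B i * A i) ∈ 𝔞)
    (hV : ∀ i, ∃ v : V i, v ≠ 0)
    (hsurj : ∀ i, ∀ X ∈ SpL (ω i), ∃ A ∈ 𝔞, A i = X)
    (hsep : ∀ i j, i ≠ j → K i j ∨
      (∃ A ∈ 𝔞, A j = 0 ∧ A i ≠ 0) ∨ (∃ A ∈ 𝔞, A i = 0 ∧ A j ≠ 0))
    {a : ∀ i, End k (V i)} (ha : ∀ i, a i ∈ SpL (ω i))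
    (hl : ∀ i j, i ≠ j → K i j →
      ∀ (g : V j →ₗ[k] V i) (c : k), Function.Bijective g → c ≠ 0 →
      (∀ A ∈ 𝔞, ∀ x, g (A j x) = A i (g x)) → (∀ x y, ω j x y = c * ω i (g x) (g y)) →
      ∀ x, g (a j x) = a i (g x)) : a ∈ 𝔞 := by
  classical
  let r : ι → ι → Prop := fun i j => i = j ∨ (K i j ∧ Lk ω 𝔞 i j)
  let S : Setoid ι := ⟨r, fun i => Or.inl rfl, by
      rintro i j (rfl | ⟨h1, h3⟩)
      · exact Or.inl rfl
      · exact Or.inr ⟨hKs _ _ h1, lk_symm ω 𝔞 h3⟩, by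
      rintro i j l (rfl | ⟨h1, h3⟩) (rfl | ⟨h4, h6⟩)
      · exact Or.inl rfl
      · exact Or.inr ⟨h4, h6⟩
      · exact Or.inr ⟨h1, h3⟩
      · exact Or.inr ⟨hKt _ _ _ h1 h4, lk_trans ω 𝔞 h3 h6⟩⟩
  let Q := Quotient S
  have : Fintype Q := Fintype.ofFinite Q
  let e : Q → ι := fun c => c.out
  have hne : ∀ c c' : Q, c ≠ c' → ¬ r (e c) (e c') := by
    intro c c' h h1
    apply h
    rw [← Quotient.out_eq c, ← Quotient.out_eq c']
    exact Quotient.sound h1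
  let res : (∀ i, End k (V i)) →ₗ[k] (∀ c : Q, End k (V (e c))) :=
    LinearMap.pi fun c => LinearMap.proj (e c)
  have hsimple : ∀ i, ∀ J : Submodule k (End k (V i)), J ≤ SpL (ω i) →
      (∀ X ∈ SpL (ω i), ∀ Y ∈ J, X * Y - Y * X ∈ J) → (∃ Y ∈ J, Y ≠ 0) → SpL (ω i) ≤ J := by
    intro i J h1 h2 h3
    rcases hkind i with halt | ⟨hs, hc⟩
    · obtain ⟨R, _, _, ee, iv, jj, hiv, hivne, hjj, hj1, hω⟩ :=
        Pool.Agent.W529.Ta.exists_darboux (finrank k (V i)) (V i) (ω i) halt (hnd i) le_rfl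
      have hj0 : ∀ x, jj x ≠ 0 := by
        intro x
        rcases hj1 x with h | h <;> rw [h]
        · exact one_ne_zero
        · exact neg_ne_zero.2 one_ne_zero
      exact SpL_le (ω i) ee hiv hjj hj0 hω fun u w => J_all (ω i) halt h1 h2 (hnd i) h3 w u
    · exact SpL_simple (ω i) hs (hnd i) hc h1 h2 h3
  have hnab : ∀ i, ∃ X ∈ SpL (ω i), ∃ Y ∈ SpL (ω i), X * Y - Y * X ≠ 0 := by
    intro i
    rcases hkind i with halt | ⟨hs, hc⟩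
    · obtain ⟨δ, hδ⟩ := hV i
      exact SpL_nab (ω i) (hnd i) halt hδ
    · exact SpL_nab_symm (ω i) hs (hnd i) (by omega)
  have hsingle : ∀ (c : Q) (X : End k (V (e c))), X ∈ SpL (ω (e c)) →
      Pi.single c X ∈ 𝔞.map res := by
    intro c X hX
    refine goursat (𝔞.map res) ?_ (fun c => SpL (ω (e c))) ?_ ?_ (fun c => hsimple (e c))
      (fun c => hnab (e c)) ?_ c hX
    · rintro _ ⟨A, hA, rfl⟩ _ ⟨B, hB, rfl⟩
      exact ⟨_, hbr A hA B hB, rfl⟩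
    · rintro _ ⟨A, hA, rfl⟩ c
      exact hsp A hA (e c)
    · intro c X hX
      obtain ⟨A, hA, h⟩ := hsurj (e c) X hX
      exact ⟨_, ⟨A, hA, rfl⟩, h⟩
    · intro i j hij
      by_contra hcon
      rw [not_or] at hcon
      push Not at hcon
      obtain ⟨hl1, hl2⟩ := hcon
      have h1 : ∀ A ∈ 𝔞, A (e j) = 0 → A (e i) = 0 := fun A hA h => hl1 _ ⟨A, hA, rfl⟩ h
      have h2 : ∀ A ∈ 𝔞, A (e i) = 0 → A (e j) = 0 := fun A hA h => hl2 _ ⟨A, hA, rfl⟩ h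
      have hee : e i ≠ e j := fun h => hne i j hij (Or.inl h)
      rcases hsep (e i) (e j) hee with hK | ⟨A, hA, h3, h4⟩ | ⟨A, hA, h3, h4⟩
      · refine hne i j hij (Or.inr ⟨hK, ?_⟩)
        rcases hKd _ _ hK with ⟨hi, hj⟩ | ⟨hi, hj, hi3, hj3, hi8⟩
        · exact link_pair ω 𝔞 hnd hsp hbr hV hsurj hi hj h2 h1
        · exact link_pair_symm ω 𝔞 hnd hsp hbr hsurj hi hj hi3 hj3 hi8 h2 h1
      · exact h4 (h1 A hA h3)
      · exact h4 (h2 A hA h3)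
  have h1 : (fun c => a (e c)) ∈ 𝔞.map res := by
    rw [← Finset.univ_sum_single (fun c => a (e c))]
    exact Submodule.sum_mem _ fun c _ => hsingle c _ (ha (e c))
  obtain ⟨A, hA, hAa⟩ := h1
  have hAe : ∀ c, A (e c) = a (e c) := fun c => congrFun hAa c
  have h2 : A = a := by
    funext i
    by_cases hi : e (Quotient.mk S i) = i
    · have h3 := hAe (Quotient.mk S i)
      rw [hi] at h3
      exact h3
    · rcases (Quotient.mk_out (s := S) i : r (e (Quotient.mk S i)) i) with hi' | ⟨hi1, hi3⟩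
      · exact absurd hi' hi
      · obtain ⟨g, c, hg, hc, hgA, hform⟩ := hi3
        refine LinearMap.ext fun x => hg.1 ?_
        have h3 := hAe (Quotient.mk S i)
        have h4 := hl _ i hi hi1 g c hg hc hgA hform x
        have h5 := hgA A hA x
        rw [h5, h4]
        change A (e (Quotient.mk S i)) _ = a (e (Quotient.mk S i)) _
        rw [h3]
  rw [← h2]
  exact hA

end Pool.Agent.H20.TK
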