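import Mathlib
import Pool.Agent.H20.TK.Defs
import Pool.Agent.H20.TK.Goursat
import Pool.Agent.H20.TJ.Link

/-!
# The elements of the Lie algebra
-/

set_option autoImplicit false
set_option linter.unusedSectionVars false

namespace Pool.Agent.H20.TK

open Matrix Pool.Agent.H4.HW Module Pool.Agent.Y114.MU Pool.Agent.Y114.TF Pool.Agent.H20.TB
  Pool.Agent.H20.TI
open Pool.Agent.H20.TD hiding Isolated IsBetti

variable {T B : Type} [Fintype T] [DecidableEq T] (M : Betti T B) {k : Type} [Field k] [CharZero k]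

/-- the polarization of `M_b` is symmetric -/
def Symmetric (b : B) : Prop := ∀ s t, M.blk s = b → M.E t s = M.E s t

variable {M}

theorem frm_symm {b : B} (h : Symmetric M b) (u v : space k M.blk b) :
    frm M k b u v = frm M k b v u := by
  rw [frm_apply, frm_apply]
  simp only [dotProduct, mulVec]
  simp only [Finset.mul_sum]
  rw [Finset.sum_comm]
  refine Finset.sum_congr rfl fun t _ => Finset.sum_congr rfl fun s _ => ?_
  by_cases hs : M.blk s = b
  · have h4 : M.EF k t s = M.EF k s t := by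
      rw [Betti.EF, map_apply, map_apply, h s t hs]
    rw [h4]
    ring
  · rw [u.2 s hs]
    ring

theorem single_mem {b : B} {t : T} (ht : M.blk t = b) :
    (Pi.single t 1 : T → k) ∈ space k M.blk b := by
  intro r hr
  rw [Pi.single_eq_of_ne]
  rintro rfl
  exact hr ht

theorem alternating_of_frm {b : B} (hE : IsBlock M.blk M.E)
    (h : ∀ v : space k M.blk b, frm M k b v v = 0) : Alternating M b := by
  intro s t hs
  by_cases ht : M.blk t = b
  · have h1 := alt_neg (frm M k b) h ⟨_, single_mem hs⟩ ⟨_, single_mem ht⟩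
    rw [frm_apply, frm_apply, single_one_dotProduct, single_one_dotProduct, mulVec_single',
      mulVec_single', Betti.EF, map_apply, map_apply, ← map_neg] at h1
    have h2 := (algebraMap ℚ k).injective h1
    rw [h2, neg_neg]
  · rw [hE s t (by rw [hs]; exact fun h => ht h.symm), hE t s (by rw [hs]; exact ht), neg_zero]

theorem finrank_space (b : B) : finrank k (space k M.blk b) = rank M b := by
  classical
  let e : space k M.blk b ≃ₗ[k] ({t // M.blk t = b} → k) :=
    { toFun := fun x t => (x : T → k) t.1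
      map_add' := fun _ _ => rfl
      map_smul' := fun _ _ => rfl
      invFun := fun y => ⟨fun t => if h : M.blk t = b then y ⟨t, h⟩ else 0, fun t ht => dif_neg ht⟩
      left_inv := fun x => by
        refine Subtype.ext (funext fun t => ?_)
        change (if h : M.blk t = b then (x : T → k) t else 0) = (x : T → k) t
        split_ifs with h
        · rfl
        · exact (x.2 t h).symm
      right_inv := fun y => by
        funext t
        change (if h : M.blk t.1 = b then y ⟨t.1, h⟩ else 0) = y t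
        rw [dif_pos t.2] }
  rw [e.finrank_eq, Module.finrank_fintype_fun_eq_card, rank, Nat.card_eq_fintype_card]

omit [DecidableEq T] in
theorem sameKind_symm {b c : B} (h : SameKind M b c) : SameKind M c b := by
  rcases h with ⟨h1, h2⟩ | ⟨h1, h2⟩
  · exact Or.inl ⟨h2, h1⟩
  · exact Or.inr ⟨h2, h1⟩

omit [DecidableEq T] in
theorem sameKind_trans {b c d : B} (h : SameKind M b c) (h' : SameKind M c d) :
    SameKind M b d := by
  rcases h with ⟨h1, h2⟩ | ⟨h1, h2⟩
  · rcases h' with ⟨h3, h4⟩ | ⟨h3, h4⟩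
    · exact Or.inl ⟨h1, h4⟩
    · exact absurd h2 h3.1
  · rcases h' with ⟨h3, h4⟩ | ⟨h3, h4⟩
    · exact absurd h3 h2.1
    · exact Or.inr ⟨h1, h4⟩

variable (M) in
/-- the hypotheses on the Lie algebra -/
structure GlueHyp (A : Set B) (𝔤 : Submodule k (Matrix T T k)) : Prop where
  form : IsUnit M.E.det ∧ IsBlock M.blk M.E
  kind : ∀ b ∈ A, Alternating M b ∨ (Symmetric M b ∧ (rank M b = 3 ∨ 5 ≤ rank M b))
  ex : ∀ b ∈ A, ∃ v, M.blk v = b
  noto : M.blk M.o ∉ A
  block : ∀ Z ∈ 𝔤, IsBlock M.blk Z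
  brack : ∀ Z ∈ 𝔤, ∀ Z' ∈ 𝔤, Z * Z' - Z' * Z ∈ 𝔤
  pol : ∀ Z ∈ 𝔤, M.Pol A Z
  /-- the projection on every summand is surjective, also for the elements which are zero on an
  incompatible summand -/
  proj : ∀ b ∈ A, ∀ X, M.ActsOn b X → Xᵀ * M.EF k + M.EF k * X = 0 →
    ∃ Z ∈ 𝔤, ∀ s t, (M.blk s ∉ A ∨ M.blk s = b ∨ ¬ Compatible M b (M.blk s)) → Z s t = X s t

namespace GlueHyp

variable {A : Set B} {𝔤 : Submodule k (Matrix T T k)}

theorem hh_ideal (H : GlueHyp M A 𝔤) {X Z : Matrix T T k} (hX : X ∈ 𝔤) (hZ : Z ∈ hh M A 𝔤) :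
    X * Z - Z * X ∈ hh M A 𝔤 := by
  refine ⟨H.brack X hX Z hZ.1, fun s t hs => ?_⟩
  rw [Matrix.sub_apply, mul_apply, mul_apply, Finset.sum_eq_zero, Finset.sum_eq_zero, sub_zero]
  · intro r _
    rw [hZ.2 s r hs, zero_mul]
  · intro r _
    by_cases hr : M.blk s = M.blk r
    · rw [hZ.2 r t (by rw [← hr]; exact hs), mul_zero]
    · rw [H.block X hX s r hr, zero_mul]

theorem sp (H : GlueHyp M A 𝔤) : ∀ a ∈ ha M A 𝔤, ∀ i, a i ∈ SpL (frm M k i.1) := by
  intro a ha' i
  obtain ⟨Z, hZ, h⟩ := mem_ha.1 ha'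
  intro u v
  rw [← h i]
  have h1 := frm_rows (H.block Z hZ.1) (c := 0) (fun s t hs => by
    rw [H.pol Z hZ.1 i.1 i.2 s t hs, hZ.2 M.o M.o H.noto, mul_zero]) u v
  rw [h1, zero_mul]

theorem br (H : GlueHyp M A 𝔤) : ∀ a ∈ ha M A 𝔤, ∀ a' ∈ ha M A 𝔤,
    (fun i => a i * a' i - a' i * a i) ∈ ha M A 𝔤 := by
  intro a ha' a' ha''
  obtain ⟨Z, hZ, h⟩ := mem_ha.1 ha'
  obtain ⟨Z', hZ', h'⟩ := mem_ha.1 ha''
  refine mem_ha.2 ⟨_, H.hh_ideal hZ.1 hZ', fun i => ?_⟩
  rw [map_sub, rs_mul (H.block Z hZ.1) (H.block Z' hZ'.1), rs_mul (H.block Z' hZ'.1) (H.block Z hZ.1),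
    h, h']

/-- surjectivity, with zero on the incompatible summands -/
theorem surj' (H : GlueHyp M A 𝔤) : ∀ i : {b // b ∈ A}, ∀ Y ∈ SpL (frm M k i.1),
    ∃ a ∈ ha M A 𝔤, a i = Y ∧ ∀ j : {b // b ∈ A}, j ≠ i → ¬ Compatible M i.1 j.1 → a j = 0 := by
  intro i Y hY
  obtain ⟨Z, hZ, h⟩ := H.proj i.1 i.2 (up Y) (fun s t h => up_maps Y s t h) (up_skew H.form.2 hY)
  have hZh : Z ∈ hh M A 𝔤 := by
    refine ⟨hZ, fun s t hs => ?_⟩
    rw [h s t (Or.inl hs)]
    by_contra h0
    exact hs (by rw [(up_maps Y s t h0).1]; exact i.2)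
  refine ⟨_, mem_ha.2 ⟨Z, hZh, fun _ => rfl⟩, ?_, ?_⟩
  · refine LinearMap.ext fun x => Subtype.ext (funext fun s => ?_)
    rw [rs_coe (H.block Z hZ)]
    have h2 : (Y x : T → k) = up Y *ᵥ (x : T → k) := by rw [up_mulVec, pj_of_mem]
    rw [h2]
    by_cases hs : M.blk s = i.1
    · simp only [mulVec, dotProduct]
      exact Finset.sum_congr rfl fun t _ => by rw [h s t (Or.inr (Or.inl hs))]
    · rw [act_space (H.block Z hZ) x.2 s hs, ← h2]
      exact ((Y x).2 s hs).symm
  · intro j hj hc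
    refine LinearMap.ext fun x => Subtype.ext (funext fun s => ?_)
    rw [rs_coe (H.block Z hZ)]
    change (Z *ᵥ (x : T → k)) s = 0
    by_cases hs : M.blk s = j.1
    · rw [mulVec, dotProduct]
      refine Finset.sum_eq_zero fun t _ => ?_
      rw [h s t (Or.inr (Or.inr (by rw [hs]; exact hc)))]
      by_cases h0 : up Y s t = 0
      · rw [h0, zero_mul]
      · exact absurd (Subtype.ext (hs.symm.trans (up_maps Y s t h0).1)) hj
    · exact act_space (H.block Z hZ) x.2 s hs

theorem surj (H : GlueHyp M A 𝔤) : ∀ i : {b // b ∈ A}, ∀ Y ∈ SpL (frm M k i.1),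
    ∃ a ∈ ha M A 𝔤, a i = Y := fun i Y hY => by
  obtain ⟨a, h1, h2, -⟩ := H.surj' i Y hY
  exact ⟨a, h1, h2⟩

theorem ne (H : GlueHyp M A 𝔤) : ∀ i : {b // b ∈ A}, ∃ v : space k M.blk i.1, v ≠ 0 := by
  intro i
  obtain ⟨t, ht⟩ := H.ex i.1 i.2
  refine ⟨⟨Pi.single t 1, single_mem ht⟩, fun h => ?_⟩
  have h1 := congrFun (congrArg Subtype.val h) t
  change (Pi.single t 1 : T → k) t = 0 at h1
  rw [Pi.single_eq_same] at h1
  exact one_ne_zero h1

theorem nd (H : GlueHyp M A 𝔤) (i : {b // b ∈ A}) (u : space k M.blk i.1)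
    (h : ∀ v, frm M k i.1 v u = 0) : u = 0 := frm_nondeg H.form.1 H.form.2 u h

theorem kd (H : GlueHyp M A 𝔤) (i : {b // b ∈ A}) :
    Kind (fun i : {b // b ∈ A} => frm M k i.1) i := by
  rcases H.kind i.1 i.2 with h | ⟨h1, h2⟩
  · exact Or.inl fun v => frm_alt h v
  · refine Or.inr ⟨fun u v => frm_symm h1 u v, ?_⟩
    rw [finrank_space]
    exact h2

theorem rs_eq_zero {b : B} {Z : Matrix T T k} (hZ : IsBlock M.blk Z) :
    rs M.blk b Z = 0 ↔ TD.pr k M.blk {b} * Z = 0 := by
  constructor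
  · intro h
    ext s t
    rw [pr_mul_apply, Matrix.zero_apply]
    split_ifs with hs
    · have hs' : M.blk s = b := hs
      by_cases ht : M.blk t = b
      · have e1 := congrArg (fun Y : End k (space k M.blk b) =>
          (Y ⟨_, single_mem ht⟩ : T → k) s) h
        beta_reduce at e1
        rw [rs_coe hZ, mulVec_single'] at e1
        exact e1
      · exact hZ s t (by rw [hs']; exact fun h' => ht h'.symm)
    · rfl
  · intro h
    refine LinearMap.ext fun x => Subtype.ext (funext fun s => ?_)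
    rw [rs_coe hZ]
    change (Z *ᵥ (x : T → k)) s = 0
    by_cases hs : M.blk s = b
    · rw [mulVec, dotProduct]
      refine Finset.sum_eq_zero fun t _ => ?_
      have h1 := congrFun (congrFun h s) t
      rw [pr_mul_apply, if_pos (show M.blk s ∈ ({b} : Set B) from hs)] at h1
      rw [h1, Matrix.zero_apply, zero_mul]
    · exact act_space hZ x.2 s hs

theorem surj_pr (H : GlueHyp M A 𝔤) {b : B} (hb : b ∈ A) (X : Matrix T T k)
    (h1 : TD.pr k M.blk {b} * X = X) (h2 : X * TD.pr k M.blk {b} = X)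
    (h3 : Xᵀ * M.EF k + M.EF k * X = 0) : ∃ Z ∈ hh M A 𝔤, TD.pr k M.blk {b} * Z = X := by
  have hact : M.ActsOn b X := by
    intro s t hst
    constructor
    · by_contra hs
      rw [← h1, pr_mul_apply, if_neg (fun h : M.blk s ∈ ({b} : Set B) => hs h)] at hst
      exact hst rfl
    · by_contra ht
      rw [← h2, TD.pr, mul_diagonal, if_neg (fun h : M.blk t ∈ ({b} : Set B) => ht h),
        mul_zero] at hst
      exact hst rfl
  obtain ⟨Z, hZ, h⟩ := H.proj b hb X hact h3
  refine ⟨Z, ⟨hZ, fun s t hs => ?_⟩, ?_⟩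
  · rw [h s t (Or.inl hs)]
    by_contra h0
    exact hs (by rw [(hact s t h0).1]; exact hb)
  · ext s t
    rw [pr_mul_apply]
    split_ifs with hs
    · exact h s t (Or.inr (Or.inl hs))
    · by_contra h0
      exact hs (hact s t fun h' => h0 h'.symm).1

/-- **The relation for a link.** -/
theorem link_rel (H : GlueHyp M A 𝔤) {i j : {b // b ∈ A}}
    {g : space k M.blk j.1 →ₗ[k] space k M.blk i.1} (hg : Function.Bijective g) {c : k}
    (hga : ∀ a ∈ ha M A 𝔤, ∀ x, g (a j x) = a i (g x))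
    (hform : ∀ x y, frm M k j.1 x y = c * frm M k i.1 (g x) (g y)) {X : Matrix T T k} (hX : X ∈ 𝔤) :
    (2 : k) • (X * up g - up g * X) =
      (((M.wt i.1 - M.wt j.1 : ℤ) : k) * X M.o M.o) • up g := by
  have hXb := H.block X hX
  have hnd := fun (u : space k M.blk j.1) (hu : ∀ v, frm M k j.1 v u = 0) =>
    frm_nondeg H.form.1 H.form.2 u hu
  obtain ⟨δ, hδ⟩ := H.ne j
  have hscal : ∀ C : End k (space k M.blk j.1), (∀ Y ∈ SpL (frm M k j.1), ∀ x, C (Y x) = Y (C x)) →
      ∃ l : k, ∀ x, C x = l • x := by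
    intro C hC
    rcases H.kind j.1 j.2 with hj | ⟨hj, hr⟩
    · exact scalar_of_SpL (frm M k j.1) (fun v => frm_alt hj v) hnd hC hδ
    · refine scalar_of_comm (fun u v => frm_symm hj u v) hnd ?_ fun Y hY => ?_
      · rw [finrank_space]
        omega
      · exact LinearMap.ext fun x => hC Y hY x
  have hpair : ∃ y, frm M k j.1 δ y ≠ 0 := by
    by_contra hcon
    push Not at hcon
    rcases H.kind j.1 j.2 with hj | ⟨hj, -⟩
    · refine hδ (hnd δ fun v => ?_)
      rw [alt_neg (frm M k j.1) (fun v => frm_alt hj v), hcon v, neg_zero]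
    · refine hδ (hnd δ fun v => ?_)
      rw [frm_symm hj, hcon v]
  obtain ⟨G, hG⟩ : ∃ G : space k M.blk j.1 →ₗ[k] space k M.blk i.1,
      G = rs M.blk i.1 X ∘ₗ g - g ∘ₗ rs M.blk j.1 X := ⟨_, rfl⟩
  have hGx : ∀ x, G x = rs M.blk i.1 X (g x) - g (rs M.blk j.1 X x) := fun x => by rw [hG]; rfl
  have hGa : ∀ a ∈ ha M A 𝔤, ∀ x, G (a j x) = a i (G x) := by
    intro a ha' x
    obtain ⟨Z, hZ, h⟩ := mem_ha.1 ha'
    have h1 := hga _ (mem_ha.2 ⟨_, H.hh_ideal hX hZ, fun _ => rfl⟩) x
    rw [map_sub, rs_mul hXb (H.block Z hZ.1), rs_mul (H.block Z hZ.1) hXb,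
      map_sub, rs_mul hXb (H.block Z hZ.1), rs_mul (H.block Z hZ.1) hXb, h, h,
      LinearMap.sub_apply, LinearMap.sub_apply, Module.End.mul_apply, Module.End.mul_apply,
      Module.End.mul_apply, Module.End.mul_apply, map_sub, hga a ha', ← hga a ha' x] at h1
    rw [hGx, hGx, map_sub, ← sub_eq_zero]
    have h2 := sub_eq_zero.2 h1
    rw [← neg_eq_zero] at h2
    rw [← h2, hga a ha' x]
    abel
  -- the quotient commutes with the symplectic Lie algebra
  let ge : space k M.blk j.1 ≃ₗ[k] space k M.blk i.1 := LinearEquiv.ofBijective g hg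
  have hge : ∀ x, ge x = g x := fun _ => rfl
  obtain ⟨l, hl⟩ := hscal (ge.symm.toLinearMap ∘ₗ G) (by
    intro Y hY x
    obtain ⟨a, ha', rfl⟩ := H.surj j Y hY
    apply ge.injective
    rw [LinearMap.comp_apply, LinearMap.comp_apply, LinearEquiv.coe_coe,
      LinearEquiv.apply_symm_apply, hge, hga a ha', ← hge, LinearEquiv.apply_symm_apply,
      hGa a ha'])
  have hGl : ∀ x, G x = l • g x := by
    intro x
    have h1 := congrArg ge (hl x)
    rw [LinearMap.comp_apply, LinearEquiv.coe_coe, LinearEquiv.apply_symm_apply, map_smul] at h1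
    exact h1
  -- the multiplier
  obtain ⟨y, hy⟩ := hpair
  have e1 := frm_rows hXb (fun s t hs => H.pol X hX i.1 i.2 s t hs) (g δ) (g y)
  have e2 := frm_rows hXb (fun s t hs => H.pol X hX j.1 j.2 s t hs) δ y
  have e3 : ∀ x, rs M.blk i.1 X (g x) = l • g x + g (rs M.blk j.1 X x) := by
    intro x
    rw [← hGl, hGx, sub_add_cancel]
  rw [e3, e3, map_add, map_smul, map_add, LinearMap.add_apply, LinearMap.smul_apply, map_smul,
    smul_eq_mul] at e1
  rw [hform, hform, hform] at e2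
  rw [hform] at hy
  have hlam : 2 * l = ((M.wt i.1 - M.wt j.1 : ℤ) : k) * X M.o M.o := by
    push_cast
    have h1 : (2 * l - (M.wt i.1 - M.wt j.1) * X M.o M.o) * (c * frm M k i.1 (g δ) (g y)) = 0 := by
      linear_combination c * e1 - e2
    exact sub_eq_zero.1 ((mul_eq_zero.1 h1).resolve_right hy)
  rw [mul_up hXb, up_mul hXb, ← up_sub, ← hG]
  have h3 : G = l • g := LinearMap.ext hGl
  rw [h3, up_smul, smul_smul, hlam]

/-- **The elements of the Lie algebra which are zero outside `A`.** -/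
theorem mem_of_links (H : GlueHyp M A 𝔤)
    (hno : ∀ b ∈ A, ∀ c ∈ A, (∃ n, adHodge M b n ≠ adHodge M c n) →
      ¬ ∀ Z ∈ hh M A 𝔤, (TD.pr k M.blk {b} * Z = 0 ↔ TD.pr k M.blk {c} * Z = 0))
    {Z : Matrix T T k} (hZb : IsBlock M.blk Z) (hZ0 : ∀ s t, M.blk s ∉ A → Z s t = 0)
    (hsk : ∀ b ∈ A, ∀ s t, M.blk s = b → (Zᵀ * M.EF k + M.EF k * Z) s t = 0)
    (hl : ∀ i j : {b // b ∈ A}, i ≠ j → SameKind M i.1 j.1 →
      ∀ (g : space k M.blk j.1 →ₗ[k] space k M.blk i.1) (c : k),
      Function.Bijective g → c ≠ 0 → (∀ a ∈ ha M A 𝔤, ∀ x, g (a j x) = a i (g x)) →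
      (∀ x y, frm M k j.1 x y = c * frm M k i.1 (g x) (g y)) →
      Z * up g = up g * Z) : Z ∈ 𝔤 := by
  classical
  have hfin : Finite {b // b ∈ A} := by
    have h1 : A ⊆ Set.range M.blk := fun b hb => H.ex b hb
    exact (Set.finite_range M.blk).subset h1
  let _ : Fintype {b // b ∈ A} := Fintype.ofFinite _
  have h1 := goursat_mixed (fun i : {b // b ∈ A} => frm M k i.1) (ha M A 𝔤)
    (fun i j => SameKind M i.1 j.1) (fun i j h => sameKind_symm h)
    (fun i j l h h' => sameKind_trans h h') (by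
      rintro i j (⟨h1, h2⟩ | ⟨h1, h2⟩)
      · exact Or.inl ⟨fun v => frm_alt h1 v, fun v => frm_alt h2 v⟩
      · have g1 : Symmetric M i.1 := by
          rcases H.kind i.1 i.2 with h | h
          · exact absurd h h1.1
          · exact h.1
        have g2 : Symmetric M j.1 := by
          rcases H.kind j.1 j.2 with h | h
          · exact absurd h h2.1
          · exact h.1
        refine Or.inr ⟨fun u v => frm_symm g1 u v, fun u v => frm_symm g2 u v, ?_, ?_, ?_⟩
        · rw [finrank_space]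
          have := h1.2.1
          omega
        · rw [finrank_space]
          have := h2.2.1
          omega
        · rw [finrank_space]
          exact h1.2.2) H.kd H.nd
    (fun a ha' i => H.sp a ha' i) (fun a ha' a' ha'' => H.br a ha' a' ha'') H.ne H.surj (by
      intro i j hij
      by_cases hc : Compatible M i.1 j.1
      · rcases hc with h1 | ⟨-, -, h3⟩
        · exact Or.inl h1
        · refine Or.inr ?_
          have h4 := hno i.1 i.2 j.1 j.2 h3
          push Not at h4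
          obtain ⟨Z, hZ, h4⟩ := h4
          have hZb := H.block Z hZ.1
          rcases h4 with ⟨h5, h6⟩ | ⟨h5, h6⟩
          · exact Or.inr ⟨_, mem_ha.2 ⟨Z, hZ, fun _ => rfl⟩, (rs_eq_zero hZb).2 h5,
              fun h => h6 ((rs_eq_zero hZb).1 h)⟩
          · exact Or.inl ⟨_, mem_ha.2 ⟨Z, hZ, fun _ => rfl⟩, (rs_eq_zero hZb).2 h6,
              fun h => h5 ((rs_eq_zero hZb).1 h)⟩
      · refine Or.inr (Or.inl ?_)
        obtain ⟨Y, hY, hY0⟩ : ∃ Y ∈ SpL (frm M k i.1), Y ≠ 0 := by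
          have hnab : ∃ X ∈ SpL (frm M k i.1), ∃ Y ∈ SpL (frm M k i.1), X * Y - Y * X ≠ 0 := by
            rcases H.kd i with halt | ⟨hs, hc⟩
            · obtain ⟨δ, hδ⟩ := H.ne i
              exact SpL_nab (frm M k i.1) (H.nd i) halt hδ
            · refine SpL_nab_symm (frm M k i.1) hs (H.nd i) ?_
              rcases hc with h | h
              · exact h.ge
              · exact le_trans (by norm_num) h
          obtain ⟨X, hX, Y, -, h⟩ := hnab
          refine ⟨X, hX, fun h0 => h ?_⟩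
          refine LinearMap.ext fun x => ?_
          rw [LinearMap.sub_apply, Module.End.mul_apply, Module.End.mul_apply, h0,
            LinearMap.zero_apply, LinearMap.zero_apply, map_zero]
          exact sub_self _
        obtain ⟨a, ha', h1, h2⟩ := H.surj' i Y hY
        exact ⟨a, ha', h2 j (Ne.symm hij) hc, by rw [h1]; exact hY0⟩)
    (a := fun i => rs M.blk i.1 Z) (by
      intro i u v
      have h1 := frm_rows hZb (c := 0) (fun s t hs => by rw [hsk i.1 i.2 s t hs, zero_mul]) u v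
      rw [h1, zero_mul]) (by
      intro i j hij hK g c hg hc hga hform x
      have h1 := hl i j hij hK g c hg hc hga hform
      rw [mul_up hZb, up_mul hZb] at h1
      have h2 := congrArg (fun Y : Matrix T T k => Y *ᵥ (x : T → k)) h1
      beta_reduce at h2
      rw [up_mulVec, up_mulVec, pj_of_mem] at h2
      exact (Subtype.ext h2).symm)
  obtain ⟨Z', hZ', h⟩ := mem_ha.1 h1
  have hZb' := H.block Z' hZ'.1
  have hZZ : Z' = Z := by
    ext s t
    by_cases hs : M.blk s ∈ A
    swap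
    · rw [hZ'.2 s t hs, hZ0 s t hs]
    by_cases ht : M.blk t = M.blk s
    swap
    · rw [hZb' s t (fun h => ht h.symm), hZb s t (fun h => ht h.symm)]
    have e1 := congrArg (fun Y : End k (space k M.blk (M.blk s)) =>
      (Y ⟨_, single_mem ht⟩ : T → k) s) (h ⟨M.blk s, hs⟩)
    beta_reduce at e1
    rw [rs_coe hZb', mulVec_single', rs_coe hZb, mulVec_single'] at e1
    exact e1
  rw [← hZZ]
  exact hZ'.1

end GlueHyp

end Pool.Agent.H20.TK
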