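import Mathlib
import Pool.Agent.H20.TD.Ell
import Pool.Agent.H20.TH.Defs
import Pool.Agent.H20.TH.Comp
import Pool.Agent.H20.TK.Glue

/-!
# The structure of the Lie algebras
-/

set_option autoImplicit false
set_option linter.unusedSectionVars false

namespace Pool.Agent.H20.TK

open Matrix Pool.Agent.H4.HW Module Pool.Agent.Y114.MU Pool.Agent.Y114.TF Pool.Agent.H20.TB
  Pool.Agent.H20.TJ
open Pool.Agent.H20.TH hiding IsBetti TateHom MotHom Distinct
open Pool.Agent.H20.TD hiding Isolated IsBetti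

variable {T B : Type} [Fintype T] [DecidableEq T] {M : Betti T B} {k : Type} [Field k] [CharZero k]
  {F : Type} [Field F] [CharZero F] [Algebra k F]

section side

variable {S : Set B} {𝔤 : Submodule k (Matrix T T k)} {Q : Matrix T T F}

theorem theta_oo (H : Side M S 𝔤 Q) (hM : IsBetti M S) :
    (Q * diagonal (fun t => (M.hdg t : F)) * Q⁻¹) M.o M.o = 1 := by
  rw [diag_oo H.unitQ H.blkQ hM.tate.1, hM.tate.2.1, Int.cast_one]

theorem cut (H : Side M S 𝔤 Q) (hM : IsBetti M S) {b : B} (hb : b ∈ S) {J : Set B} (hbJ : b ∈ J)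
    (hJ : ∀ c ∈ J, c ≠ b → ¬ (c ∈ S ∧ Compatible M b c)) (X : Matrix T T k)
    (hX : M.ActsOn b X) (hs : Xᵀ * M.EF k + M.EF k * X = 0) :
    ∃ Z ∈ 𝔤, TD.pr k M.blk J * Z = X := by
  obtain ⟨v, hv⟩ := hM.isolated b hb
  obtain ⟨ε, hε, hsym⟩ := hv.sign
  refine core_cut (F := F) (ε := algebraMap ℚ k ε) (Q := Q) (h := fun t => (M.hdg t : F))
    (w := (M.wt b : F)) (o₁ := v) hbJ ?_ (M.EF_block hM.form.2) (M.EF_unit hM.form.1) ?_ H.brack
    ?_ (H.abs b hb) H.blkQ H.unitQ H.theta ?_ hv.mem ?_ ?_ ?_ X hX hs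
  · rcases hε with h1 | h1
    · left; rw [h1, map_one]
    · right; rw [h1, map_neg, map_one]
  · intro s t hs
    rw [Betti.EF, map_apply, map_apply, hsym s t hs, map_mul]
  · intro Z hZ
    exact ⟨M.wt b * Z M.o M.o, fun s t hs => H.pol Z hZ b hb s t hs⟩
  · intro s t hs
    have h1 := Betti.ext_pol H.pol _ H.theta b hb s t hs
    rw [theta_oo H hM, mul_one] at h1
    rw [M.EF_map]
    exact h1
  · intro t ht he
    exact hv.one t ht (by exact_mod_cast he)
  · intro r s t hr hs ht he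
    rcases hv.isolated r s t hr hs ht (by exact_mod_cast he) with h | h | h
    · exact Or.inl h
    · exact Or.inr (Or.inl h)
    · right; right
      exact_mod_cast h
  · intro t r s ht hne hrs hr hrJ he
    exact hv.across r s t ht hne hrs hr (hJ _ hrJ hr) (by exact_mod_cast he)

/-- the summands in `S` whose Lie algebra of the form is simple -/
def goodS (M : Betti T B) (S : Set B) : Set B := {b | b ∈ S ∧ IsGood M b}

theorem glueHyp (H : Side M S 𝔤 Q) (hM : IsBetti M S) : GlueHyp M (goodS M S) 𝔤 := by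
  refine ⟨hM.form, ?_, ?_, fun h => hM.tate.2.2 h.1, H.block, H.brack,
    fun Z hZ b hb => H.pol Z hZ b hb.1, ?_⟩
  · rintro b ⟨hb, hg⟩
    by_cases hA : Alternating M b
    · exact Or.inl hA
    · obtain ⟨v, hv⟩ := hM.isolated b hb
      obtain ⟨ε, hε, hsym⟩ := hv.sign
      rcases hε with rfl | rfl
      · refine Or.inr ⟨fun s t hs => by rw [hsym s t hs, one_mul], ?_⟩
        rcases hg with hg | hg
        · exact absurd hg hA
        · exact hg
      · exact absurd (fun s t hs => by rw [hsym s t hs, neg_one_mul]) hA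
  · intro b hb
    obtain ⟨v, hv⟩ := hM.isolated b hb.1
    exact ⟨v, hv.mem⟩
  · intro b hb X hX hs
    obtain ⟨Z, hZ, h⟩ := cut H hM hb.1
      (J := {c | c ∉ goodS M S ∨ c = b ∨ ¬ Compatible M b c}) (Or.inr (Or.inl rfl)) (by
      rintro c (hc | hc | hc) hcb ⟨h2, h3⟩
      · refine hc ⟨h2, ?_⟩
        rcases h3 with (⟨-, h3⟩ | ⟨-, h3⟩) | ⟨-, h3, -⟩
        · exact Or.inl h3
        · exact Or.inr h3.2.1
        · exact h3
      · exact hcb hc
      · exact hc h3) X hX hs
    refine ⟨Z, hZ, fun s t hst => ?_⟩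
    rw [← h, pr_mul_apply, if_pos]
    exact hst

/-- the Hodge numbers of the Lie algebra of the form -/
theorem adHodge_eq (H : Side M S 𝔤 Q) (hM : IsBetti M S) {b : B} (hb : b ∈ S) (n : ℤ) :
    adHodge M b n = 2 * finrank F (adEig M.blk (M.EF F) b
      (Q * diagonal (fun t => (M.hdg t : F)) * Q⁻¹) (-(n : F))) := by
  classical
  obtain ⟨v, hv⟩ := hM.isolated b hb
  obtain ⟨ε, hε, hsym⟩ := hv.sign
  have hpol : ∀ s t, M.blk s = b → ((Q * diagonal (fun t => (M.hdg t : F)) * Q⁻¹)ᵀ * M.EF F +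
      M.EF F * (Q * diagonal (fun t => (M.hdg t : F)) * Q⁻¹)) s t =
      (M.wt b : F) * M.EF F s t := by
    intro s t hs
    have h1 := Betti.ext_pol H.pol _ H.theta b hb s t hs
    rw [theta_oo H hM, mul_one] at h1
    exact h1
  have hcard : ∀ q : F, Nat.card {p : T × T // M.blk p.1 = b ∧ M.blk p.2 = b ∧
      (M.hdg p.1 : F) + M.hdg p.2 = (M.wt b : F) - -(n : F)} =
      Nat.card {p : T × T // M.blk p.1 = b ∧ M.blk p.2 = b ∧
        M.hdg p.1 + M.hdg p.2 = M.wt b + n} := by
    intro _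
    refine Nat.card_congr (Equiv.subtypeEquivRight fun p => ?_)
    rw [sub_neg_eq_add]
    refine and_congr_right fun _ => and_congr_right fun _ => ?_
    exact_mod_cast Iff.rfl
  have hcard' : Nat.card {t : T // M.blk t = b ∧ M.blk t = b ∧
      (M.hdg t : F) + M.hdg t = (M.wt b : F) - -(n : F)} =
      Nat.card {t : T // M.blk t = b ∧ M.hdg t + M.hdg t = M.wt b + n} := by
    refine Nat.card_congr (Equiv.subtypeEquivRight fun t => ?_)
    rw [sub_neg_eq_add]
    constructor
    · rintro ⟨h1, -, h2⟩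
      exact ⟨h1, by exact_mod_cast h2⟩
    · rintro ⟨h1, h2⟩
      exact ⟨h1, h1, by exact_mod_cast h2⟩
  have hR : ∀ s t : T, (M.blk s = b ∧ M.blk t = b ∧
      (M.hdg s : F) + M.hdg t = (M.wt b : F) - -(n : F)) → (M.blk t = b ∧ M.blk s = b ∧
      (M.hdg t : F) + M.hdg s = (M.wt b : F) - -(n : F)) := by
    rintro s t ⟨h1, h2, h3⟩
    exact ⟨h2, h1, by rw [add_comm]; exact h3⟩
  by_cases hA : Alternating M b
  · have hs : ∀ s t, M.blk s = b → M.EF F t s = (-1 : F) * M.EF F s t := by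
      intro s t hs
      rw [Betti.EF, map_apply, map_apply, hA s t hs, map_neg, neg_one_mul]
    rw [finrank_adEig (ε := (-1 : F)) (Or.inr rfl) (M.EF_block hM.form.2) (M.EF_unit hM.form.1) hs
      H.blkQ H.unitQ rfl hpol, neg_neg, finrank_symSup _ hR 1 (Or.inl rfl), if_pos rfl, hcard 0,
      hcard', adHodge, if_pos hA]
  · have hε1 : ε = 1 := by
      rcases hε with h1 | h1
      · exact h1
      · exact absurd (fun s t hs => by rw [hsym s t hs, h1, neg_one_mul]) hA
    have hs : ∀ s t, M.blk s = b → M.EF F t s = (1 : F) * M.EF F s t := by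
      intro s t hs
      rw [Betti.EF, map_apply, map_apply, hsym s t hs, hε1, one_mul, one_mul]
    rw [finrank_adEig (ε := (1 : F)) (Or.inl rfl) (M.EF_block hM.form.2) (M.EF_unit hM.form.1) hs
      H.blkQ H.unitQ rfl hpol, finrank_symSup _ hR (-1) (Or.inr rfl),
      if_neg (show ¬ ((-1 : F) = 1) by norm_num), hcard 0, hcard', adHodge, if_neg hA]

/-- Lie algebras with different Hodge numbers are not linked. -/
theorem not_linked (H : Side M S 𝔤 Q) (hM : IsBetti M S) :
    ∀ b ∈ goodS M S, ∀ c ∈ goodS M S, (∃ n, adHodge M b n ≠ adHodge M c n) →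
      ¬ ∀ Z ∈ hh M (goodS M S) 𝔤,
        (TD.pr k M.blk {b} * Z = 0 ↔ TD.pr k M.blk {c} * Z = 0) := by
  rintro b hb c hc ⟨n, hn⟩ hlink
  apply hn
  have hG := glueHyp H hM
  have hDb : IsBlock M.blk (Q * diagonal (fun t => (M.hdg t : F)) * Q⁻¹) :=
    (H.blkQ.mul (IsBlock.diagonal _)).mul (H.blkQ.inv H.unitQ)
  rw [adHodge_eq H hM hb.1, adHodge_eq H hM hc.1]
  congr 2
  have hsk : ∀ a ∈ goodS M S, ∀ Z ∈ hh M (goodS M S) 𝔤, ∀ s t, M.blk s = a →
      (Zᵀ * M.EF k + M.EF k * Z) s t = 0 := by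
    intro a ha' Z hZ s t hs
    rw [H.pol Z hZ.1 a ha'.1 s t hs, hZ.2 M.o M.o fun h => hM.tate.2.2 h.1, mul_zero, zero_mul]
  have h1 := finrank_link (F := F) (E := M.EF k) (𝔥 := hh M (goodS M S) 𝔤) (i := b) (j := c)
    (μ := -(n : F)) (fun Z hZ => H.block Z hZ.1) (M.EF_block hM.form.2) hDb (by
      intro Z hZ
      refine mem_extk fun φ => ?_
      rw [fmap_sub, fmap_left, fmap_right]
      exact hG.hh_ideal (fmap_mem H.theta φ) hZ) (hsk b hb) (hsk c hc)
    (fun X h1 h2 h3 => hG.surj_pr hb X h1 h2 h3) (fun X h1 h2 h3 => hG.surj_pr hc X h1 h2 h3) hlink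
  rw [M.EF_map] at h1
  exact h1

/-- linked summands have isomorphic Hodge structures -/
theorem link_theta (H : Side M S 𝔤 Q) (hM : IsBetti M S) {b c : B} {G : Matrix T T k} (hG : G ≠ 0)
    (hrel : ∀ X ∈ 𝔤, (2 : k) • (X * G - G * X) =
      (((M.wt b - M.wt c : ℤ) : k) * X M.o M.o) • G) :
    ∃ m : ℤ, 2 * m = M.wt b - M.wt c ∧
      Q * diagonal (fun t => (M.hdg t : F)) * Q⁻¹ * G.map (algebraMap k F) -
      G.map (algebraMap k F) * (Q * diagonal (fun t => (M.hdg t : F)) * Q⁻¹) =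
      m • G.map (algebraMap k F) := by
  have h1 := LieHyp.ext_rel (F := F) hrel _ H.theta
  rw [theta_oo H hM, mul_one] at h1
  refine LieHyp.parity H.unitQ ?_ h1
  intro h0
  apply hG
  ext s t
  have h2 := congrFun (congrFun h0 s) t
  rw [map_apply, Matrix.zero_apply] at h2
  rw [Matrix.zero_apply]
  exact (map_eq_zero _).1 h2

/-- the skew operators on the other summands in `S` -/
theorem str₁ (H : Side M S 𝔤 Q) (hM : IsBetti M S) : M.Str (S \ goodS M S) 𝔤 := by
  refine ⟨H.block, fun Z hZ b hb => H.pol Z hZ b hb.1, fun b hb X hX hs => ?_⟩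
  obtain ⟨Z, hZ, h⟩ := cut H hM hb.1 (J := Set.univ) trivial (by
    rintro c _ _ ⟨-, h1⟩
    refine hb.2 ⟨hb.1, ?_⟩
    rcases h1 with (⟨h1, -⟩ | ⟨h1, -⟩) | ⟨h1, -⟩
    · exact Or.inl h1
    · exact Or.inr h1.2.1
    · exact h1) X hX hs
  have h1 : TD.pr k M.blk Set.univ * Z = Z := by
    ext s t
    rw [pr_mul_apply, if_pos (Set.mem_univ _)]
  rw [h1] at h
  rw [← h]
  exact hZ

/-- **The elements of the Lie algebra.** -/
theorem mem_of (H : Side M S 𝔤 Q) (hM : IsBetti M S) {X : Matrix T T k} (hXb : IsBlock M.blk X)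
    (hXp : M.Pol S X) (hXo : M.part Sᶜ X ∈ M.parts Sᶜ 𝔤)
    (hl : ∀ i j : {b // b ∈ S}, i ≠ j → SameKind M i.1 j.1 →
      ∀ (g : space k M.blk j.1 →ₗ[k] space k M.blk i.1), up g ≠ 0 →
      (∀ Y ∈ 𝔤, (2 : k) • (Y * up g - up g * Y) =
        (((M.wt i.1 - M.wt j.1 : ℤ) : k) * Y M.o M.o) • up g) →
      (2 : k) • (X * up g - up g * X) =
        (((M.wt i.1 - M.wt j.1 : ℤ) : k) * X M.o M.o) • up g) : X ∈ 𝔤 := by
  obtain ⟨Y, hY, hYX⟩ := hXo
  have hLH := glueHyp H hM
  obtain ⟨Z, hZ⟩ : ∃ Z, Z = X - Y := ⟨_, rfl⟩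
  have hYb := H.block Y hY
  have hZb : IsBlock M.blk Z := by
    intro s t hst
    rw [hZ, Matrix.sub_apply, hXb s t hst, hYb s t hst, sub_zero]
  have hZ0 : ∀ s t, M.blk s ∉ S → M.blk t ∉ S → Z s t = 0 := by
    intro s t hs ht
    have h1 := congrFun (congrFun hYX ⟨s, hs⟩) ⟨t, ht⟩
    change Y s t = X s t at h1
    rw [hZ, Matrix.sub_apply, h1, sub_self]
  have hZo : Z M.o M.o = 0 := hZ0 _ _ hM.tate.2.2 hM.tate.2.2
  have hZp : ∀ b ∈ S, ∀ s t, M.blk s = b → (Zᵀ * M.EF k + M.EF k * Z) s t = 0 := by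
    have h1 : M.Pol S Z := by
      have h2 := hXp.add M ((H.pol Y hY).smul M (-1))
      have h3 : X + (-1 : k) • Y = Z := by
        rw [neg_smul, one_smul, hZ, sub_eq_add_neg]
      rwa [h3] at h2
    intro b hb s t hs
    rw [h1 b hb s t hs, hZo, mul_zero, zero_mul]
  -- the two parts
  have h1 : Z = TD.pr k M.blk (goodS M S) * Z + TD.pr k M.blk (goodS M S)ᶜ * Z := by
    ext s t
    rw [Matrix.add_apply, pr_mul_apply, pr_mul_apply]
    by_cases hs : M.blk s ∈ goodS M S
    · rw [if_pos hs, if_neg (fun h => h hs), add_zero]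
    · rw [if_neg hs, if_pos (show M.blk s ∈ (goodS M S)ᶜ from hs), zero_add]
  have hprb : ∀ J : Set B, IsBlock M.blk (TD.pr k M.blk J * Z) := fun J =>
    (IsBlock.diagonal _).mul hZb
  have h2 : TD.pr k M.blk (goodS M S)ᶜ * Z ∈ 𝔤 := by
    refine (str₁ H hM).mem_of_zero M hM.form.2 (fun h => hM.tate.2.2 h.1) (hprb _) ?_ ?_
    · intro b hb s t hs
      rw [pr_rows (J := (goodS M S)ᶜ) (b := b) hb.2 (M.EF_block hM.form.2) hZb s t hs,
        hZp b hb.1 s t hs, pr_mul_apply, hZo]
      split_ifs <;> rw [mul_zero, zero_mul]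
    · ext s t
      show (TD.pr k M.blk (goodS M S)ᶜ * Z) s.1 t.1 = 0
      rw [pr_mul_apply]
      split_ifs with h3
      · have hs : M.blk s.1 ∉ S := fun h4 => s.2 ⟨h4, h3⟩
        by_cases ht : M.blk t.1 ∈ S
        · exact hZb _ _ fun h => hs (by rw [h]; exact ht)
        · exact hZ0 _ _ hs ht
      · rfl
  have h3 : TD.pr k M.blk (goodS M S) * Z ∈ 𝔤 := by
    refine hLH.mem_of_links (not_linked H hM) (hprb _) ?_ ?_ ?_
    · intro s t hs
      rw [pr_mul_apply, if_neg hs]
    · intro b hb s t hs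
      rw [pr_rows (J := goodS M S) hb (M.EF_block hM.form.2) hZb s t hs, hZp b hb.1 s t hs]
    · intro i j hij hK g c hg hc hga hform
      obtain ⟨δ, hδ⟩ := hLH.ne j
      have hrel := fun Y (hY : Y ∈ 𝔤) => hLH.link_rel hg hga hform hY
      have e1 := hl ⟨i.1, i.2.1⟩ ⟨j.1, j.2.1⟩
        (fun h => hij (Subtype.ext (Subtype.mk.inj h))) hK g (up_ne_zero (x := δ) fun h => hδ (hg.1 (by rw [h, map_zero]))) hrel
      have e2 := hrel Y hY
      have e3 : Z * up g - up g * Z = 0 := by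
        have e4 : (2 : k) • (Z * up g - up g * Z) = 0 := by
          have e5 : Z * up g - up g * Z = (X * up g - up g * X) - (Y * up g - up g * Y) := by
            rw [hZ]
            noncomm_ring
          have e6 : Y M.o M.o = X M.o M.o := by
            rw [hZ, Matrix.sub_apply, sub_eq_zero] at hZo
            exact hZo.symm
          rw [e5, smul_sub, e1, e2, e6, sub_self]
        exact (smul_eq_zero.1 e4).resolve_left two_ne_zero
      have e7 : TD.pr k M.blk (goodS M S) * up g = up g := by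
        ext s t
        rw [pr_mul_apply]
        split_ifs with h4
        · rfl
        · by_contra h0
          exact h4 (by rw [(up_maps g s t fun h => h0 h.symm).1]; exact i.2)
      have e8 : up g * TD.pr k M.blk (goodS M S) = up g := by
        ext s t
        rw [TD.pr, mul_diagonal]
        split_ifs with h4
        · rw [mul_one]
        · rw [mul_zero]
          by_contra h0
          exact h4 (by rw [(up_maps g s t fun h => h0 h.symm).2]; exact j.2)
      calc TD.pr k M.blk (goodS M S) * Z * up g = TD.pr k M.blk (goodS M S) * (Z * up g) := by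
            rw [mul_assoc]
        _ = TD.pr k M.blk (goodS M S) * up g * Z := by rw [sub_eq_zero.1 e3, mul_assoc]
        _ = up g * (TD.pr k M.blk (goodS M S) * Z) := by rw [e7, ← mul_assoc, e8]
  have h4 : X = TD.pr k M.blk (goodS M S) * Z + TD.pr k M.blk (goodS M S)ᶜ * Z + Y := by
    rw [← h1, hZ, sub_add_cancel]
  rw [h4]
  exact add_mem (add_mem h3 h2) hY

end side

/-! ### The Lie algebra of the Mumford-Tate group -/

section hodge

variable {S : Set B} (hM : IsBetti M S)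
include hM

/-- the Hodge operator satisfies the similitude equation -/
theorem pol_D : M.Pol S M.D := by
  intro b hb s t hs
  obtain ⟨v, hv⟩ := hM.isolated b hb
  rw [hv.polar s t hs]
  have h1 : M.D M.o M.o = 1 := by
    rw [Betti.D, diag_oo hM.basis.1 hM.basis.2 hM.tate.1, hM.tate.2.1, Int.cast_one]
  rw [h1, mul_one]

theorem mt_simil : mtLie M.D ≤ M.simil S := by
  obtain ⟨r, c, Dk, hc, hD⟩ := exists_comp M.D
  refine mtLie_le ?_ ?_
  · rintro _ ⟨h1, h2⟩ _ ⟨h3, h4⟩
    refine ⟨?_, h2.brack M hM.tate.1 h1 h3 h4⟩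
    intro s t hst
    rw [Matrix.sub_apply, (h1.mul h3) s t hst, (h3.mul h1) s t hst, sub_zero]
  · rw [hD]
    refine (mem_extk_iff hc _).2 fun k => ?_
    have h1 := M.D_block hM.basis
    have h2 := pol_D hM
    rw [hD] at h1 h2
    exact M.comp_simil hc h1 h2 k

/-- the Lie algebra of the Mumford-Tate group is absolutely irreducible on `M_b` -/
theorem mt_absIrr {b : B} (hb : b ∈ S) : AbsIrr M.blk b (mtLie M.D) := by
  obtain ⟨v, hv⟩ := hM.isolated b hb
  obtain ⟨r, c, Dk, hc, hD⟩ := exists_comp M.D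
  have hDk : ∀ k, Dk k ∈ mtLie M.D := by
    intro k
    rw [hD]
    exact comp_mem hc k
  refine ⟨fun Z hZ => (mt_simil hM hZ).1, ?_, ?_⟩
  · intro W hW hst
    refine hv.simple W hW fun x hx => ?_
    have h1 : M.D *ᵥ (fun t => (x t : ℂ)) =
        ∑ k, c k • (fun t => (((Dk k) *ᵥ x) t : ℂ)) := by
      rw [hD]
      ext s
      simp only [mulVec, dotProduct, Matrix.sum_apply, Matrix.smul_apply, map_apply, smul_eq_mul,
        Finset.sum_apply, Pi.smul_apply]
      simp only [Finset.sum_mul]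
      rw [Finset.sum_comm]
      refine Finset.sum_congr rfl fun k _ => ?_
      push_cast
      rw [Finset.mul_sum]
      refine Finset.sum_congr rfl fun t _ => ?_
      show c k * ((Dk k s t : ℚ) : ℂ) * _ = _
      ring
    rw [h1]
    refine Submodule.sum_mem _ fun k _ => Submodule.smul_mem _ _ ?_
    exact Submodule.subset_span ⟨Dk k *ᵥ x, hst _ (hDk k) x hx, rfl⟩
  · intro C hC hcomm
    refine hv.trivialEnd C hC ?_
    rw [hD, Finset.mul_sum, Finset.sum_mul]
    refine Finset.sum_congr rfl fun k _ => ?_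
    rw [mul_smul_comm, smul_mul_assoc, ← map_mul', ← map_mul', hcomm _ (hDk k)]

theorem mt_side : Side M S (mtLie M.D) M.P :=
  ⟨fun _ hX => (mt_simil hM hX).1, mtLie_brack M.D, fun _ hX => (mt_simil hM hX).2,
    fun _ hb => mt_absIrr hM hb, hM.basis.1, hM.basis.2, mtLie_ext M.D⟩

theorem D_oo : M.D M.o M.o = 1 := by
  rw [Betti.D, diag_oo hM.basis.1 hM.basis.2 hM.tate.1, hM.tate.2.1, Int.cast_one]

/-- a relation satisfied by the Lie algebra of the Mumford-Tate group gives a map of Hodge structures -/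
theorem hodge_of {b c : B} {m : ℤ} {G : Matrix T T ℚ} (hG : MapsTo M b c G)
    (h : ∀ X ∈ mtLie M.D, X * G - G * X = ((m : ℚ) * X M.o M.o) • G) : HodgeMap M b c m G := by
  refine ⟨hG, ?_⟩
  have h1 := LieHyp.ext_rel (F := ℂ) (n := 2 * m) (o := M.o) (G := G) (𝔤 := mtLie M.D) (by
    intro X hX
    rw [h X hX, smul_smul]
    congr 1
    push_cast
    ring) _ (mtLie_ext M.D)
  rw [D_oo hM, mul_one] at h1
  have h2 : ((2 * m : ℤ) : ℂ) • G.map (algebraMap ℚ ℂ) = (2 : ℂ) • (m • G.map (algebraMap ℚ ℂ)) := by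
    rw [← Int.cast_smul_eq_zsmul ℂ m, smul_smul]
    push_cast
    rfl
  rw [h2] at h1
  exact smul_right_injective _ (two_ne_zero (α := ℂ)) h1

/-- the Lie algebra of the Mumford-Tate group commutes with the maps of Hodge structures -/
theorem mt_rel {b c : B} {m : ℤ} {G : Matrix T T ℚ} (hG : HodgeMap M b c m G) :
    ∀ X ∈ mtLie M.D, X * G - G * X = ((m : ℚ) * X M.o M.o) • G := by
  let L : Submodule ℚ (Matrix T T ℚ) :=
    { carrier := {X | IsBlock M.blk X ∧ X * G - G * X = ((m : ℚ) * X M.o M.o) • G}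
      add_mem' := by
        rintro X Y ⟨h1, h2⟩ ⟨h3, h4⟩
        refine ⟨fun s t hst => by rw [Matrix.add_apply, h1 s t hst, h3 s t hst, add_zero], ?_⟩
        rw [add_mul, mul_add, add_sub_add_comm, h2, h4, Matrix.add_apply, mul_add, add_smul]
      zero_mem' := ⟨fun _ _ _ => rfl, by
        rw [zero_mul, mul_zero, sub_zero, Matrix.zero_apply, mul_zero, zero_smul]⟩
      smul_mem' := by
        rintro a X ⟨h1, h2⟩
        refine ⟨fun s t hst => by rw [Matrix.smul_apply, h1 s t hst, smul_zero], ?_⟩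
        rw [smul_mul_assoc, mul_smul_comm, ← smul_sub, h2, Matrix.smul_apply, smul_smul,
          smul_eq_mul]
        congr 1
        ring }
  have hle : mtLie M.D ≤ L := by
    refine mtLie_le ?_ ?_
    · rintro X ⟨h1, h2⟩ Y ⟨h3, h4⟩
      refine ⟨fun s t hst => by
        rw [Matrix.sub_apply, (h1.mul h3) s t hst, (h3.mul h1) s t hst, sub_zero], ?_⟩
      have e1 : X * G = G * X + ((m : ℚ) * X M.o M.o) • G := by rw [← h2]; abel
      have e2 : Y * G = G * Y + ((m : ℚ) * Y M.o M.o) • G := by rw [← h4]; abel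
      have e3 : (X * Y - Y * X) M.o M.o = 0 := by
        rw [Matrix.sub_apply, mul_oo hM.tate.1 h1, mul_oo hM.tate.1 h3]
        ring
      rw [e3, mul_zero, zero_smul, sub_eq_zero]
      calc (X * Y - Y * X) * G = X * (Y * G) - Y * (X * G) := by noncomm_ring
        _ = (X * G) * Y + ((m : ℚ) * Y M.o M.o) • (X * G) -
            ((Y * G) * X + ((m : ℚ) * X M.o M.o) • (Y * G)) := by
          rw [e2, e1, mul_add, mul_add, mul_smul_comm, mul_smul_comm, ← mul_assoc, ← mul_assoc]
          rw [e1, e2]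
        _ = G * (X * Y - Y * X) := by
          rw [e1, e2]
          simp only [add_mul, smul_mul_assoc, smul_add, mul_sub, smul_smul, ← mul_assoc]
          module
    · refine mem_extk fun φ => ⟨fmap_block (M.D_block hM.basis) φ, ?_⟩
      have h1 := congrArg (fun Z : Matrix T T ℂ => Z.map φ) hG.2
      beta_reduce at h1
      rw [fmap_sub, fmap_left, fmap_right] at h1
      rw [h1]
      ext s t
      rw [map_apply, Matrix.smul_apply, Matrix.smul_apply, map_apply, map_apply, D_oo hM,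
        map_zsmul, smul_eq_mul]
      have h3 := fun_mul φ (G s t) 1
      rw [mul_one] at h3
      rw [h3, zsmul_eq_mul]
      ring
  intro X hX
  exact (hle hX).2

end hodge

end Pool.Agent.H20.TK
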