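import Mathlib
import Pool.Agent.H20.TK.Side
import Pool.Agent.H20.TH.Exp

/-!
# The theorem
-/

set_option autoImplicit false
set_option linter.unusedSectionVars false

namespace Pool.Agent.H20.TK

open Matrix Filter Topology Pool.Agent.H4.HW Pool.Agent.H20.TC Pool.Agent.Y114.MU
open Pool.Agent.H20.TH hiding IsBetti TateHom MotHom Distinct
open Pool.Agent.H20.TD hiding Isolated IsBetti

variable {T B : Type} [Fintype T] [DecidableEq T] {M : Betti T B}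
  {ℓ : ℕ} [Fact ℓ.Prime] {Γ : Type} [Group Γ] [TopologicalSpace Γ] {S : Set B}
  {ρ : Γ →* Matrix T T ℚ_[ℓ]}

theorem ell_pol (hM : IsBetti M S) (hρ : M.IsRealization S ρ) : ∀ Z ∈ Lie.sub ρ, M.Pol S Z := by
  intro Z hZ b hb s t hs
  exact Lie.polar ρ hM.tate.1 hρ.block (fun g s t hs => hρ.polar g b hb s t hs) Z hZ s t hs

theorem ell_side (hM : IsBetti M S) (hρ : M.IsRealization S ρ) (hT : ∀ b ∈ S, M.TateEnd b ρ)
    [IsTopologicalGroup Γ] : ∃ Q : Matrix T T ℂ_[ℓ], Side M S (Lie.sub ρ) Q := by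
  obtain ⟨Q, hQ1, hQ2, hQ3⟩ := hρ.sen
  exact ⟨Q, Lie.block ρ hρ.block, fun Z hZ Z' hZ' => Lie.brack ρ hZ hZ', ell_pol hM hρ,
    fun b hb => Lie.absIrr ρ hρ.continuous hρ.block ⟨(hT b hb).irreducible, (hT b hb).scalar⟩,
    hQ1, hQ2, hQ3⟩

/-- the two forms of the relation -/
theorem two_rel {K : Type} [Field K] [CharZero K] {m n : ℤ} (h : 2 * m = n) {A G : Matrix T T K}
    {x : K} : (2 : K) • A = ((n : K) * x) • G ↔ A = ((m : K) * x) • G := by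
  have h1 : ((n : K) * x) • G = (2 : K) • (((m : K) * x) • G) := by
    rw [← h, smul_smul]
    congr 1
    push_cast
    ring
  rw [h1]
  exact (smul_right_injective _ (two_ne_zero (α := K))).eq_iff

/-- the Lie algebra of the Mumford-Tate group and the combinations of the maps of Hodge structures -/
theorem ext_hom {L : Type} [Field L] [CharZero L] [Algebra ℚ L] (hM : IsBetti M S) {b c : B} {m : ℤ}
    {C : Matrix T T L} (hC : C ∈ extend L {G | HodgeMap M b c m G}) :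
    ∀ Θ ∈ extk L (mtLie M.D), Θ * C - C * Θ = ((m : L) * Θ M.o M.o) • C := by
  intro Θ hΘ
  induction hC using Submodule.span_induction with
  | mem x hx =>
    obtain ⟨G, hG, rfl⟩ := hx
    exact (two_rel rfl).1 (LieHyp.ext_rel (F := L) (n := 2 * m) (o := M.o) (G := G)
      (𝔤 := mtLie M.D) (fun X hX => (two_rel rfl).2 (mt_rel hM hG X hX)) Θ hΘ)
  | zero => rw [mul_zero, zero_mul, sub_zero, smul_zero]
  | add x y _ _ h1 h2 => rw [mul_add, add_mul, add_sub_add_comm, h1, h2, smul_add]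
  | smul a x _ h1 => rw [mul_smul_comm, smul_mul_assoc, ← smul_sub, h1, smul_comm]

theorem maps_ext {L : Type} [Field L] [Algebra ℚ L] {b c : B} {m : ℤ}
    {C : Matrix T T L} (hC : C ∈ extend L {G | HodgeMap M b c m G}) : MapsTo M b c C := by
  induction hC using Submodule.span_induction with
  | mem x hx =>
    obtain ⟨G, hG, rfl⟩ := hx
    intro s t hst
    refine hG.1 s t fun h0 => hst ?_
    beta_reduce
    rw [map_apply, h0, map_zero]
  | zero => exact fun s t hst => absurd rfl hst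
  | add x y _ _ h1 h2 =>
    intro s t hst
    by_cases hx : x s t = 0
    · refine h2 s t fun hy => hst ?_
      rw [Matrix.add_apply, hx, hy, add_zero]
    · exact h1 s t hx
  | smul a x _ h1 =>
    intro s t hst
    refine h1 s t fun hx => hst ?_
    rw [Matrix.smul_apply, hx, smul_zero]

variable [IsTopologicalGroup Γ] [CompactSpace Γ]

/-- the conjecture implies the Tate conjecture for homomorphisms -/
theorem tateHom_of (hM : IsBetti M S) (hρ : M.IsRealization S ρ)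
    (h : Lie.sub ρ = extk ℚ_[ℓ] (mtLie M.D)) : TateHom M S ρ := by
  intro b hb c hc hbc hK m hm C
  constructor
  · rintro ⟨hC, U, hU, hUC⟩
    have h1 := lie_hom hM.tate.1 hρ.continuous hρ.block hU hUC
    refine mem_extend fun φ => ?_
    refine hodge_of hM (fun s t hst => hC s t fun h0 => hst (by rw [map_apply, h0, map_zero]))
      fun X hX => ?_
    exact fmap_hom (h1 _ (by rw [h]; exact extk_mem hX)) φ
  · intro hC
    refine ⟨maps_ext hC, exp_hom hM.tate.1 hρ.continuous hρ.block fun Z hZ => ?_⟩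
    rw [h] at hZ
    exact ext_hom hM hC Z hZ

/-- the conjecture implies the Tate conjecture for endomorphisms -/
theorem tateEnd_of (hM : IsBetti M S)
    (hρ : M.IsRealization S ρ) (h : ∀ Z ∈ mtLie M.D, Z.map (algebraMap ℚ ℚ_[ℓ]) ∈ Lie.sub ρ) :
    ∀ b ∈ S, M.TateEnd b ρ := by
  intro b hb
  have habs := mt_absIrr hM hb
  refine ⟨fun W hW hst => ?_, fun U hU C hC hcomm => ?_⟩
  · refine habs.ext W hW fun Z hZ x hx => ?_
    exact Lie.stable ρ W hst _ (h Z hZ) x hx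
  · refine habs.comm_ext C hC fun Z hZ => ?_
    exact Lie.comm_open ρ hρ.continuous U hU hcomm _ (h Z hZ)

/-- the link relations for the Lie algebra of the Mumford-Tate group -/
theorem mt_link (hM : IsBetti M S) {i j : {b // b ∈ S}}
    {g : space ℚ M.blk j.1 →ₗ[ℚ] space ℚ M.blk i.1} (hg : up g ≠ 0)
    (hrel : ∀ Y ∈ mtLie M.D, (2 : ℚ) • (Y * up g - up g * Y) =
      (((M.wt i.1 - M.wt j.1 : ℤ) : ℚ) * Y M.o M.o) • up g) :
    ∃ m : ℤ, 2 * m = M.wt i.1 - M.wt j.1 ∧ HodgeMap M i.1 j.1 m (up g) := by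
  obtain ⟨m, hm, hΘ⟩ := link_theta (mt_side hM) hM hg hrel
  exact ⟨m, hm, fun s t h => up_maps g s t h, hΘ⟩

theorem lie_le [DecidablePred fun t => M.blk t ∈ Sᶜ] (hM : IsBetti M S)
    (hρ : M.IsRealization S ρ) (hH : TateHom M S ρ)
    (h3 : M.parts Sᶜ (Lie.sub ρ) ≤ M.parts Sᶜ (extk ℚ_[ℓ] (mtLie M.D))) :
    Lie.sub ρ ≤ extk ℚ_[ℓ] (mtLie M.D) := by
  intro X hX
  refine mem_extk fun φ => mem_of (mt_side hM) hM (fmap_block (Lie.block ρ hρ.block X hX) φ)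
    (fmap_pol (ell_pol hM hρ X hX) φ) ?_ ?_
  · have h1 : M.part Sᶜ X ∈ M.parts Sᶜ (extk ℚ_[ℓ] (mtLie M.D)) := h3 ⟨X, hX, rfl⟩
    rw [← M.parts_ext] at h1
    exact fmap_mem h1 φ
  · intro i j hij hK g hg hrel
    obtain ⟨m, hm, hG⟩ := mt_link hM hg hrel
    obtain ⟨-, U, hU, hUC⟩ := (hH i.1 i.2 j.1 j.2 (fun h => hij (Subtype.ext h)) hK
      m hm _).2 (Submodule.subset_span ⟨_, hG, rfl⟩)
    have h1 := lie_hom hM.tate.1 hρ.continuous hρ.block hU hUC X hX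
    exact fmap_rel ((two_rel hm).2 h1) φ

theorem le_lie [DecidablePred fun t => M.blk t ∈ Sᶜ] (hM : IsBetti M S)
    (hρ : M.IsRealization S ρ) (hT : ∀ b ∈ S, M.TateEnd b ρ) (hH : TateHom M S ρ)
    (h3 : M.parts Sᶜ (extk ℚ_[ℓ] (mtLie M.D)) ≤ M.parts Sᶜ (Lie.sub ρ)) :
    extk ℚ_[ℓ] (mtLie M.D) ≤ Lie.sub ρ := by
  obtain ⟨Q, HS⟩ := ell_side hM hρ hT
  intro X hX
  refine mem_of HS hM ?_ (Betti.ext_pol (fun Z hZ => (mt_simil hM hZ).2) X hX)
    (h3 ⟨X, hX, rfl⟩) ?_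
  · induction hX using Submodule.span_induction with
    | mem x hx =>
      obtain ⟨x, hx, rfl⟩ := hx
      exact (mt_simil hM hx).1.map
    | zero => exact fun _ _ _ => rfl
    | add x y _ _ h1 h2 =>
      intro s t hst
      rw [Matrix.add_apply, h1 s t hst, h2 s t hst, add_zero]
    | smul c x _ h1 =>
      intro s t hst
      rw [Matrix.smul_apply, h1 s t hst, smul_zero]
  · intro i j hij hK g hg hrel
    obtain ⟨m, hm, -⟩ := link_theta HS hM hg hrel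
    have h1 := (hH i.1 i.2 j.1 j.2 (fun h => hij (Subtype.ext h)) hK m hm (up g)).1
      ⟨fun s t h => up_maps g s t h, exp_hom hM.tate.1 hρ.continuous hρ.block
        fun Z hZ => (two_rel hm).1 (hrel Z hZ)⟩
    exact (two_rel hm).2 (ext_hom hM h1 X hX)

theorem main₁ [DecidablePred fun t => M.blk t ∈ Sᶜ] (hM : IsBetti M S)
    (hρ : M.IsRealization S ρ) :
    MumfordTate M.D ρ ↔ (∀ b ∈ S, M.TateEnd b ρ) ∧ TateHom M S ρ ∧
      MumfordTate (M.part Sᶜ M.D) (fun g => M.part Sᶜ (ρ g)) := by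
  constructor
  · intro h
    have h1 : Lie.sub ρ = extk ℚ_[ℓ] (mtLie M.D) := SetLike.coe_injective h
    have h0 : ∀ Z ∈ mtLie M.D, Z.map (algebraMap ℚ ℚ_[ℓ]) ∈ Lie.sub ρ := by
      intro Z hZ
      rw [h1]
      exact extk_mem hZ
    exact ⟨tateEnd_of hM hρ h0, tateHom_of hM hρ h1,
      Betti.mumfordTate_part _ hM.basis hρ.continuous hρ.block h⟩
  · rintro ⟨h1, hH, h2⟩
    have h3 : M.parts Sᶜ (Lie.sub ρ) = M.parts Sᶜ (extk ℚ_[ℓ] (mtLie M.D)) := by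
      apply SetLike.coe_injective
      rw [← M.lie_part Sᶜ hρ.continuous hρ.block, ← M.parts_ext, ← M.mt_part Sᶜ hM.basis]
      exact h2
    have h4 : Lie.sub ρ = extk ℚ_[ℓ] (mtLie M.D) :=
      le_antisymm (lie_le hM hρ hH h3.le) (le_lie hM hρ h1 hH h3.ge)
    exact congrArg (fun L : Submodule ℚ_[ℓ] (Matrix T T ℚ_[ℓ]) => (L : Set (Matrix T T ℚ_[ℓ]))) h4

theorem main₂ [DecidablePred fun t => M.blk t ∈ Sᶜ] (hM : IsBetti M S)
    (hρ : M.IsRealization S ρ) {𝔪 : Submodule ℚ (Matrix T T ℚ)} (hm : M.IsMotivic S ρ 𝔪) :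
    Motivated M.D 𝔪 ρ ↔ (∀ b ∈ S, M.TateEnd b ρ) ∧ TateHom M S ρ ∧ MotHom M S 𝔪 ∧
      Motivated (M.part Sᶜ M.D) (M.parts Sᶜ 𝔪) (fun g => M.part Sᶜ (ρ g)) := by
  have hle : mtLie M.D ≤ 𝔪 := mtLie_le hm.bracket hm.hodge
  constructor
  · rintro ⟨h1, h2⟩
    have h3 : MumfordTate M.D ρ := by
      show _ = _
      rw [← h2, h1]
    obtain ⟨h4, hH, h5⟩ := (main₁ hM hρ).1 h3
    refine ⟨h4, hH, ?_, ?_, ?_⟩
    · intro b _ c _ _ _ m _ G hG X hX
      rw [← h1] at hX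
      exact mt_rel hM hG X hX
    · rw [M.mt_part Sᶜ hM.basis, h1]
    · have h6 := h5
      rw [MumfordTate, M.mt_part Sᶜ hM.basis, h1] at h6
      exact h6.symm
  · rintro ⟨h1, hH, hMo, h2, h3⟩
    rw [M.mt_part Sᶜ hM.basis] at h2
    have h4 : mtLie M.D = 𝔪 := by
      refine le_antisymm hle fun X hX => ?_
      refine mem_of (mt_side hM) hM (hm.block X hX) ?_ ?_ ?_
      · intro b hb s t hs
        rw [Betti.EF_rat]
        exact hm.polar X hX b hb s t hs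
      · rw [h2]
        exact ⟨X, hX, rfl⟩
      · intro i j hij hK g hg hrel
        obtain ⟨m, hm', hG⟩ := mt_link hM hg hrel
        exact (two_rel hm').2 (hMo i.1 i.2 j.1 j.2 (fun h => hij (Subtype.ext h)) hK
          m hm' _ hG X hX)
    refine ⟨h4, ?_⟩
    have h5 : MumfordTate M.D ρ := by
      refine (main₁ hM hρ).2 ⟨h1, hH, ?_⟩
      rw [MumfordTate, ← h3, M.mt_part Sᶜ hM.basis, h4]
    rw [← h4]
    exact h5.symm

/-- the conjecture for the Tate motive -/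
theorem tate_part [DecidablePred fun t => M.blk t ∈ Sᶜ] (hM : IsBetti M S)
    (hρ : M.IsRealization S ρ) (hS : ∀ t, M.blk t ∈ S ∨ t = M.o) :
    MumfordTate (M.part Sᶜ M.D) (fun g => M.part Sᶜ (ρ g)) ∧
    mtLie (M.part Sᶜ M.D) = ⊤ := by
  have hN : ∀ j : {t // M.blk t ∈ Sᶜ}, j = ⟨M.o, hM.tate.2.2⟩ := by
    rintro ⟨j, hj⟩
    apply Subtype.ext
    rcases hS j with h | h
    · exact absurd h hj
    · exact h
  have h1 : mtLie (M.part Sᶜ M.D) = ⊤ := by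
    rw [M.mt_part Sᶜ hM.basis]
    refine Betti.eq_top_of hN ?_
    obtain ⟨X, hX, h0⟩ := Betti.entry_of (i := M.o) (mtLie_ext M.D) (by
      rw [Betti.D, diag_oo hM.basis.1 hM.basis.2 hM.tate.1, hM.tate.2.1, Int.cast_one]
      exact one_ne_zero)
    exact ⟨_, ⟨X, hX, rfl⟩, h0⟩
  refine ⟨?_, h1⟩
  have h2 : M.parts Sᶜ (Lie.sub ρ) = ⊤ := by
    refine Betti.eq_top_of hN ?_
    obtain ⟨Q, hQ1, hQ2, hQ3⟩ := hρ.sen
    have hQ4 : Q * diagonal (fun t => (M.hdg t : ℂ_[ℓ])) * Q⁻¹ ∈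
        extend ℂ_[ℓ] ((Lie.sub ρ : Submodule ℚ_[ℓ] (Matrix T T ℚ_[ℓ])) :
          Set (Matrix T T ℚ_[ℓ])) := hQ3
    obtain ⟨X, hX, h0⟩ := Betti.entry_of (i := M.o) hQ4 (by
      rw [diag_oo hQ1 hQ2 hM.tate.1, hM.tate.2.1, Int.cast_one]
      exact one_ne_zero)
    exact ⟨_, ⟨X, hX, rfl⟩, h0⟩
  rw [MumfordTate, M.lie_part Sᶜ hρ.continuous hρ.block, h2, h1]
  have h3 : extend ℚ_[ℓ] ((⊤ : Submodule ℚ (Matrix {t // M.blk t ∈ Sᶜ} {t // M.blk t ∈ Sᶜ} ℚ)) :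
      Set (Matrix {t // M.blk t ∈ Sᶜ} {t // M.blk t ∈ Sᶜ} ℚ)) = ⊤ := by
    refine Betti.eq_top_of hN ⟨(1 : Matrix {t // M.blk t ∈ Sᶜ} {t // M.blk t ∈ Sᶜ} ℚ).map
      (algebraMap ℚ ℚ_[ℓ]), Submodule.subset_span ⟨1, trivial, rfl⟩, ?_⟩
    rw [map_apply, Matrix.one_apply_eq, map_one]
    exact one_ne_zero
  rw [h3]

theorem main₃ [DecidablePred fun t => M.blk t ∈ Sᶜ] (hM : IsBetti M S)
    (hρ : M.IsRealization S ρ) (hS : ∀ t, M.blk t ∈ S ∨ t = M.o) (hT : ∀ b ∈ S, M.TateEnd b ρ)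
    (hH : TateHom M S ρ) :
    MumfordTate M.D ρ ∧ ∀ 𝔪, M.IsMotivic S ρ 𝔪 → MotHom M S 𝔪 → Motivated M.D 𝔪 ρ := by
  obtain ⟨h1, h2⟩ := tate_part hM hρ hS
  refine ⟨(main₁ hM hρ).2 ⟨hT, hH, h1⟩, ?_⟩
  intro 𝔪 hm hMo
  refine (main₂ hM hρ hm).2 ⟨hT, hH, hMo, ?_, ?_⟩
  · rw [h2]
    symm
    rw [eq_top_iff, ← h2, M.mt_part Sᶜ hM.basis]
    rintro _ ⟨X, hX, rfl⟩
    exact ⟨X, mtLie_le hm.bracket hm.hodge hX, rfl⟩
  · have h3 : M.parts Sᶜ 𝔪 = mtLie (M.part Sᶜ M.D) := by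
      rw [h2, eq_top_iff, ← h2, M.mt_part Sᶜ hM.basis]
      rintro _ ⟨X, hX, rfl⟩
      exact ⟨X, mtLie_le hm.bracket hm.hodge hX, rfl⟩
    rw [h3]
    exact h1.symm

end Pool.Agent.H20.TK
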