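import Mathlib
import Pool.Agent.H20.TK.Main
import Pool.Agent.H20.TH.Ker

/-!
# The theorem
-/

set_option autoImplicit false
set_option linter.unusedSectionVars false

namespace Pool.Agent.H20.TK

open Matrix Pool.Agent.H4.HW Pool.Agent.H20.TC Polynomial
open Pool.Agent.H20.TH hiding IsBetti TateHom MotHom Distinct
open Pool.Agent.H20.TD hiding Isolated IsBetti

variable {T B : Type} [Fintype T] [DecidableEq T] {M : Betti T B}
  {ℓ : ℕ} [Fact ℓ.Prime] {Γ : Type} [Group Γ] [TopologicalSpace Γ] {S : Set B}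
  {ρ : Γ →* Matrix T T ℚ_[ℓ]} [IsTopologicalGroup Γ] [CompactSpace Γ]

/-- realizations which are distinguished by an element have no homomorphisms -/
theorem hom_eq_zero (hM : IsBetti M S) (hρ : M.IsRealization S ρ) (hT : ∀ b ∈ S, M.TateEnd b ρ)
    {b c : B} (hb : b ∈ S) (hc : c ∈ S) {m : ℤ} (hD : Differ M b c m ρ) {C : Matrix T T ℚ_[ℓ]}
    (hC : MapsTo M b c C) {U : Subgroup Γ} (hU : IsOpen (U : Set Γ))
    (h : ∀ g ∈ U, ρ g * C = (ρ g M.o M.o) ^ m • (C * ρ g)) : C = 0 := by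
  by_contra hC0
  obtain ⟨Q, HS⟩ := ell_side hM hρ hT
  have h1 := lie_hom hM.tate.1 hρ.continuous hρ.block hU h
  have hrel : ∀ Z ∈ Lie.sub ρ, ∃ a : ℚ_[ℓ], Z * C - C * Z = a • C := fun Z hZ => ⟨_, h1 Z hZ⟩
  have hi := hom_inj (HS.abs c hc) hC hC0 hrel
  have hs := hom_surj (HS.abs b hb) HS.block hC hC0 hrel
  obtain ⟨γ, hγ⟩ := hD
  have hf : Finite (Γ ⧸ U) := U.quotient_finite_of_isOpen hU
  have hfi : U.FiniteIndex := Subgroup.finiteIndex_of_finite_quotient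
  obtain ⟨e, he0, -, he⟩ := Subgroup.exists_pow_mem_of_index_ne_zero hfi.index_ne_zero γ
  obtain ⟨P, hP⟩ := hγ e he0
  refine hP (ker_eq hC hi hs ?_ ?_ P)
  · intro s t hst
    rw [Matrix.smul_apply, hρ.block _ s t hst, smul_zero]
  · rw [h _ he, mul_smul_comm]

/-- the Tate conjecture for homomorphisms from local conditions -/
theorem tateHom_of_distinct (hM : IsBetti M S) (hρ : M.IsRealization S ρ)
    (hT : ∀ b ∈ S, M.TateEnd b ρ) (h : Distinct M S ρ) :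
    TateHom M S ρ ∧ ∀ 𝔪, MotHom M S 𝔪 := by
  constructor
  · intro b hb c hc hbc hK m hm C
    obtain ⟨h1, h2⟩ := h b hb c hc hbc hK m hm
    constructor
    · rintro ⟨hC, U, hU, hUC⟩
      rw [hom_eq_zero hM hρ hT hb hc h2 hC hU hUC]
      exact zero_mem _
    · intro hC
      have h3 : C = 0 := by
        induction hC using Submodule.span_induction with
        | mem x hx =>
          obtain ⟨G, hG, rfl⟩ := hx
          rw [h1 G hG]
          ext s t
          simp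
        | zero => rfl
        | add x y _ _ h1 h2 => rw [h1, h2, add_zero]
        | smul a x _ h1 => rw [h1, smul_zero]
      rw [h3]
      refine ⟨fun s t hst => absurd rfl hst, ⊤, isOpen_univ, fun g _ => ?_⟩
      rw [mul_zero, zero_mul, smul_zero]
  · intro 𝔪 b hb c hc hbc hK m hm G hG X _
    rw [(h b hb c hc hbc hK m hm).1 G hG, mul_zero, zero_mul, sub_zero, smul_zero]


/-- **The theorem.** -/
theorem final (hM : IsBetti M S) (hρ : M.IsRealization S ρ) :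
    (MumfordTate M.D ρ ↔ (∀ b ∈ S, M.TateEnd b ρ) ∧ TateHom M S ρ ∧ MTPart M Sᶜ ρ) ∧
    (∀ 𝔪, M.IsMotivic S ρ 𝔪 → (Motivated M.D 𝔪 ρ ↔
      (∀ b ∈ S, M.TateEnd b ρ) ∧ TateHom M S ρ ∧ MotHom M S 𝔪 ∧ MotPart M Sᶜ 𝔪 ρ)) ∧
    ((∀ t, M.blk t ∈ S ∨ t = M.o) → (∀ b ∈ S, M.TateEnd b ρ) → TateHom M S ρ →
      ∀ J, MTPart M J ρ ∧ ∀ 𝔪, M.IsMotivic S ρ 𝔪 → MotHom M S 𝔪 → MotPart M J 𝔪 ρ) ∧
    (∀ b ∈ S, IsControlled M ρ b → M.TateEnd b ρ) ∧
    ((∀ b ∈ S, M.TateEnd b ρ) → Distinct M S ρ → TateHom M S ρ ∧ ∀ 𝔪, MotHom M S 𝔪) := by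
  let _ : DecidablePred fun t => M.blk t ∈ Sᶜ := fun _ => Classical.propDecidable _
  refine ⟨main₁ hM hρ, fun 𝔪 hm => main₂ hM hρ hm, fun hS hT hH => ?_, fun b hb h1 => ?_,
    fun hT h1 => tateHom_of_distinct hM hρ hT h1⟩
  · obtain ⟨h1, h2⟩ := main₃ hM hρ hS hT hH
    refine fun J => ?_
    let _ : DecidablePred fun t => M.blk t ∈ J := fun _ => Classical.propDecidable _
    exact ⟨Betti.mumfordTate_part J hM.basis hρ.continuous hρ.block h1,
      fun 𝔪 hm hMo => Betti.motivated_part J hM.basis hρ.continuous hρ.block (h2 𝔪 hm hMo)⟩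
  · exact h1.tateEnd hM.form.1 hM.form.2 fun g => hρ.polar g b hb

end Pool.Agent.H20.TK
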